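import Pool.Agent.TH592.Nag.Bridge

/-! Singular homology and cohomology over a field, and change of coefficients in the absence of
2-torsion. -/

set_option autoImplicit false

namespace Pool.Agent.HZ69

open Module Finsupp

noncomputable section

/-- cocycles modulo coboundaries are dual to cycles modulo boundaries -/
theorem dual_quot {k V W : Type} [Field k] [AddCommGroup V] [Module k V] [AddCommGroup W]
    [Module k W] (e : W ≃ₗ[k] Module.Dual k V) (Z B : Submodule k V) (ZW BW : Submodule k W)
    (h1 : ∀ w, w ∈ ZW ↔ ∀ b ∈ B, e w b = 0)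
    (h2 : ∀ w, w ∈ BW ↔ ∀ z ∈ Z, e w z = 0) :
    Nonempty ((ZW ⧸ BW.comap ZW.subtype) ≃ₗ[k] Module.Dual k (Z ⧸ B.submoduleOf Z)) := by
  classical
  let B' : Submodule k Z := B.submoduleOf Z
  have hvan : ∀ f : ZW, B' ≤ LinearMap.ker ((e f.1).comp Z.subtype) := by
    rintro ⟨f, hf⟩ ⟨z, hz⟩ hzb
    rw [LinearMap.mem_ker]
    exact (h1 f).mp hf z hzb
  let φ : ZW →ₗ[k] Module.Dual k (Z ⧸ B') :=
    { toFun := fun f => Submodule.liftQ B' ((e f.1).comp Z.subtype) (hvan f)
      map_add' := by
        intro f g
        apply Submodule.linearMap_qext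
        apply LinearMap.ext
        intro z
        change e (f.1 + g.1) z.1 = e f.1 z.1 + e g.1 z.1
        rw [map_add]; rfl
      map_smul' := by
        intro c f
        apply Submodule.linearMap_qext
        apply LinearMap.ext
        intro z
        change e (c • f.1) z.1 = c • e f.1 z.1
        rw [map_smul]; rfl }
  have hφ : ∀ f (z : Z), φ f (Submodule.Quotient.mk z) = e f.1 z.1 := fun f z => rfl
  have hsurj : Function.Surjective φ := by
    intro ψ
    obtain ⟨F, hF⟩ := LinearMap.exists_extend (ψ.comp B'.mkQ : Z →ₗ[k] k)
    have hF' : ∀ z : Z, F z.1 = ψ (Submodule.Quotient.mk z) := fun z => LinearMap.congr_fun hF z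
    by_cases hBZ : True
    · have hmem : e.symm (F) ∈ ZW ↔ ∀ b ∈ B, F b = 0 := by
        rw [h1, e.apply_symm_apply]
      by_cases hB : ∀ b ∈ B, b ∈ Z
      · have hm : e.symm F ∈ ZW := by
          rw [hmem]
          intro b hb
          have h3 := hF' ⟨b, hB b hb⟩
          have h4 : (Submodule.Quotient.mk (⟨b, hB b hb⟩ : Z) : Z ⧸ B') = 0 :=
            (Submodule.Quotient.mk_eq_zero _).mpr hb
          rw [h4, map_zero] at h3
          exact h3
        refine ⟨⟨e.symm F, hm⟩, ?_⟩
        apply Submodule.linearMap_qext
        apply LinearMap.ext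
        intro z
        change e (e.symm F) z.1 = ψ (Submodule.Quotient.mk z)
        rw [e.apply_symm_apply]
        exact hF' z
      · -- extend compatibly: replace `F` by a functional vanishing on `B`
        have hex : ∃ F' : V →ₗ[k] k, (∀ z : Z, F' z.1 = ψ (Submodule.Quotient.mk z)) ∧
            ∀ b ∈ B, F' b = 0 := by
          -- work in `V ⧸ B`
          let q : Z →ₗ[k] (V ⧸ B) := B.mkQ.comp Z.subtype
          let S : Submodule k (V ⧸ B) := LinearMap.range q
          have hq : LinearMap.ker q = B' := by
            ext z
            rw [LinearMap.mem_ker]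
            change (Submodule.Quotient.mk z.1 : V ⧸ B) = 0 ↔ z.1 ∈ B
            rw [Submodule.Quotient.mk_eq_zero]
          let eS : (Z ⧸ B') ≃ₗ[k] S := (Submodule.quotEquivOfEq _ _ hq.symm).trans q.quotKerEquivRange
          obtain ⟨H, hH⟩ := LinearMap.exists_extend (ψ.comp eS.symm.toLinearMap : S →ₗ[k] k)
          refine ⟨H.comp B.mkQ, ?_, ?_⟩
          · intro z
            have h5 := LinearMap.congr_fun hH (eS (Submodule.Quotient.mk z))
            have h6 : (ψ.comp eS.symm.toLinearMap : S →ₗ[k] k) (eS (Submodule.Quotient.mk z)) =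
                ψ (Submodule.Quotient.mk z) := by
              change ψ (eS.symm (eS (Submodule.Quotient.mk z))) = _
              rw [eS.symm_apply_apply]
            rw [h6] at h5
            exact h5
          · intro b hb
            change H (Submodule.Quotient.mk b) = 0
            rw [(Submodule.Quotient.mk_eq_zero _).mpr hb, map_zero]
        obtain ⟨F', hF1, hF2⟩ := hex
        refine ⟨⟨e.symm F', ?_⟩, ?_⟩
        · rw [h1, e.apply_symm_apply]
          exact hF2
        · apply Submodule.linearMap_qext
          apply LinearMap.ext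
          intro z
          change e (e.symm F') z.1 = ψ (Submodule.Quotient.mk z)
          rw [e.apply_symm_apply]
          exact hF1 z
    · exact absurd trivial hBZ
  have hker : LinearMap.ker φ = BW.comap ZW.subtype := by
    ext ⟨f, hf⟩
    rw [LinearMap.mem_ker, Submodule.mem_comap]
    change _ ↔ f ∈ _
    rw [h2]
    constructor
    · intro h z hz
      have := LinearMap.congr_fun h (Submodule.Quotient.mk ⟨z, hz⟩)
      exact this
    · intro h
      apply Submodule.linearMap_qext
      apply LinearMap.ext
      intro z
      change e f z.1 = 0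
      exact h z.1 z.2
  exact ⟨(Submodule.quotEquivOfEq _ _ hker.symm).trans (φ.quotKerEquivOfSurjective hsurj)⟩

open Pool.Agent.Helper381 Pool.Agent.TH592.Nag

section Dual

variable (k : Type) [Field k] (X : Type) [TopologicalSpace X]

theorem bd_single' (R : Type) [CommRing R] (n : ℕ) (σ : Sing X (n + 1)) (r : R) :
    Pool.Agent.TH592.Nag.bd R X n (single σ r) =
      ∑ i : Fin (n + 2), ((-1 : ℤ) ^ (i : ℕ)) • single (sface n i σ) r := by
  rw [Pool.Agent.TH592.Nag.bd, linearCombination_single, Finset.smul_sum]
  refine Finset.sum_congr rfl fun i _ => ?_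
  rw [smul_comm, smul_single, smul_eq_mul, mul_one]

/-- pairing of cochains and chains -/
theorem pair_altd (n : ℕ) (f : Sing X n → k) (z : Sing X (n + 1) →₀ k) :
    linearCombination k (altd k (sface (X := X)) n f) z =
      linearCombination k f (Pool.Agent.TH592.Nag.bd k X n z) := by
  have : linearCombination k (altd k (sface (X := X)) n f) =
      (linearCombination k f).comp (Pool.Agent.TH592.Nag.bd k X n) := by
    apply Finsupp.lhom_ext'
    intro σ
    apply LinearMap.ext_ring
    simp only [LinearMap.comp_apply, lsingle_apply, linearCombination_single, one_smul]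
    rw [bd_single', map_sum, altd_apply]
    refine Finset.sum_congr rfl fun i _ => ?_
    rw [map_zsmul, linearCombination_single, one_smul, zsmul_eq_mul]
    push_cast
    rfl
  rw [this]; rfl

theorem bd_bd' (R : Type) [CommRing R] (n : ℕ) (z : Sing X (n + 2) →₀ R) :
    Pool.Agent.TH592.Nag.bd R X n (Pool.Agent.TH592.Nag.bd R X (n + 1) z) = 0 := by
  apply toC_injective (R := R)
  rw [← d_toC, ← d_toC, map_zero]
  have := CategoryTheory.ConcreteCategory.congr_hom ((KK R X).d_comp_d (n + 2) (n + 1) n)
    (toC R X (n + 2) z)
  exact this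

theorem bou_le_cyc (R : Type) [CommRing R] (n : ℕ) : bou R X n ≤ cyc R X n := by
  rintro _ ⟨z, rfl⟩
  cases n with
  | zero => trivial
  | succ n => exact bd_bd' X R n z

/-- functions on a basis -/
def lc (S : Type) : (S → k) ≃ₗ[k] Module.Dual k (S →₀ k) := Finsupp.llift k k k S

theorem lc_apply (S : Type) (f : S → k) (z : S →₀ k) : lc k S f z = linearCombination k f z := by
  rw [lc, Finsupp.llift_apply, Finsupp.lift_apply, linearCombination_apply]

/-- cohomology is dual to homology -/
theorem coh_dual (n : ℕ) : Nonempty (SingCoh k X n ≃ₗ[k] Module.Dual k (Hm k X n)) := by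
  apply dual_quot (lc k (Sing X n)) (cyc k X n) (bou k X n)
  · intro f
    rw [LinearMap.mem_ker]
    constructor
    · rintro h _ ⟨z, rfl⟩
      rw [lc_apply, ← pair_altd, h]
      simp [linearCombination_apply]
    · intro h
      funext σ
      have h1 := h _ ⟨single σ 1, rfl⟩
      rw [lc_apply, ← pair_altd, linearCombination_single, one_smul] at h1
      exact h1
  · intro f
    cases n with
    | zero =>
      change f = 0 ↔ _
      constructor
      · rintro rfl z _
        rw [map_zero]; rfl
      · intro h
        funext σ
        have h1 := h (single σ 1) trivial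
        rw [lc_apply, linearCombination_single, one_smul] at h1
        exact h1
    | succ n =>
      constructor
      · rintro ⟨g, hg⟩ z hz
        have hg' : altd k (sface (X := X)) n g = f := hg
        have hz' : Pool.Agent.TH592.Nag.bd k X n z = 0 := hz
        rw [lc_apply, ← hg', pair_altd, hz', map_zero]
      · intro h
        have h2 : lc k _ f ∈
            (LinearMap.ker (Pool.Agent.TH592.Nag.bd k X n)).dualAnnihilator := by
          rw [Submodule.mem_dualAnnihilator]
          exact h
        rw [← LinearMap.range_dualMap_eq_dualAnnihilator_ker] at h2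
        obtain ⟨G, hG⟩ := h2
        refine ⟨(lc k _).symm G, ?_⟩
        change altd k (sface (X := X)) n ((lc k _).symm G) = f
        apply (lc k _).injective
        apply LinearMap.ext
        intro z
        rw [lc_apply, pair_altd, ← lc_apply, LinearEquiv.apply_symm_apply, ← hG]
        rfl

theorem homology_finite (n : ℕ) (h : Module.Finite k (SingCoh k X n)) :
    Module.Finite k (Hm k X n) := by
  obtain ⟨e⟩ := coh_dual k X n
  have h1 : Module.Finite k (Module.Dual k (Hm k X n)) := Module.Finite.equiv e
  exact Module.finite_dual_iff k |>.mp h1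

theorem homology_finrank (n : ℕ) : finrank k (Hm k X n) = finrank k (SingCoh k X n) := by
  obtain ⟨e⟩ := coh_dual k X n
  rw [e.finrank_eq, Subspace.dual_finrank_eq]

end Dual

end

end Pool.Agent.HZ69
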