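import Pool.Agent.HZ69.Van
import Pool.Agent.Helper381.Cover
import Pool.Agent.R292.CovDim

/-! Covers of small order and vanishing of cohomology above the dimension. -/

set_option autoImplicit false

namespace Pool.Agent.HZ69

universe u v w

open Metric Set Module
open Pool.Agent.Helper381
open Pool.Agent.R292.CovDim (Col)

/-- injective continuous images -/
theorem col_image {Z : Type u} {X : Type v} [MetricSpace Z] [MetricSpace X] {A : Set Z} {m : ℕ}
    (hA : IsCompact A) (h : Col A m) (e : Z → X) (he : ContinuousOn e A) (hinj : InjOn e A) :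
    Col (e '' A) m := by
  intro ε hε k
  have huc := hA.uniformContinuousOn_of_continuous he
  rw [Metric.uniformContinuousOn_iff_le] at huc
  obtain ⟨δ, hδ, hd⟩ := huc ε hε
  obtain ⟨κ, hκ, F, h1, h2, h3, h4⟩ := h δ hδ k
  refine ⟨κ, hκ, fun j a => e '' (F j a ∩ A), ?_, ?_, ?_, ?_⟩
  · intro j a
    exact ((h1 j a).inter hA).image_of_continuousOn (he.mono inter_subset_right)
  · intro j a b hab
    rw [Set.disjoint_left]
    rintro _ ⟨x, ⟨hx, hxA⟩, rfl⟩ ⟨y, ⟨hy, hyA⟩, hxy⟩
    have := hinj hyA hxA hxy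
    subst this
    exact Set.disjoint_left.1 (h2 j a b hab) hx hy
  · rintro j a _ ⟨x, ⟨hx, hxA⟩, rfl⟩ _ ⟨y, ⟨hy, hyA⟩, rfl⟩
    exact hd x hxA y hyA (h3 j a x hx y hy)
  · rintro _ ⟨x, hx, rfl⟩
    refine le_trans (Set.ncard_le_ncard ?_ (Set.toFinite _)) (h4 x hx)
    intro j hj hmem
    apply hj
    obtain ⟨a, ha⟩ := mem_iUnion.1 hmem
    exact mem_iUnion.2 ⟨a, x, ⟨ha, hx⟩, rfl⟩

/-- fine open covers of order at most `d + 1` -/
theorem fine_cover {X : Type u} [MetricSpace X] {d : ℕ} (h : Col (univ : Set X) d) {ε : ℝ}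
    (hε : 0 < ε) : ∃ (κ : Type) (_ : Finite κ) (V : κ → Set X), (∀ a, IsOpen (V a)) ∧
      (∀ x, ∃ a, x ∈ V a) ∧ (∀ a, ∀ x ∈ V a, ∀ y ∈ V a, dist x y < ε) ∧
      ∀ x, {a | x ∈ V a}.ncard ≤ d + 1 := by
  obtain ⟨κ, hκ, F, h1, h2, h3, h4⟩ := h (ε / 2) (by positivity) (d + 1)
  obtain ⟨δ, hδ, hgap⟩ := Pool.Agent.R292.CovDim.exists_gap F h1 h2
  set r := min (δ / 2) (ε / 5) with hr
  have hr0 : 0 < r := by positivity
  have hr1 : r ≤ δ / 2 := min_le_left _ _
  have hr2 : r ≤ ε / 5 := min_le_right _ _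
  refine ⟨Fin (d + 1) × κ, inferInstance, fun a => thickening r (F a.1 a.2),
    fun a => isOpen_thickening, ?_, ?_, ?_⟩
  · intro x
    have h5 := h4 x (mem_univ x)
    have h6 : ∃ j, x ∈ ⋃ a, F j a := by
      by_contra hcon
      push Not at hcon
      have h7 : {j | x ∉ ⋃ a, F j a} = (univ : Set (Fin (d + 1))) := by
        ext j; simp only [mem_ofPred_eq, mem_univ, iff_true]; exact hcon j
      rw [h7, Set.ncard_univ, Nat.card_fin] at h5
      omega
    obtain ⟨j, hj⟩ := h6
    obtain ⟨a, ha⟩ := mem_iUnion.1 hj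
    exact ⟨(j, a), self_subset_thickening hr0 _ ha⟩
  · rintro ⟨j, a⟩ x hx y hy
    obtain ⟨p, hp, hxp⟩ := mem_thickening_iff.1 hx
    obtain ⟨q, hq, hyq⟩ := mem_thickening_iff.1 hy
    have h5 := h3 j a p hp q hq
    have h6 := dist_triangle4 x p q y
    rw [dist_comm q y] at h6
    linarith
  · intro x
    have hinj : InjOn Prod.fst {a : Fin (d + 1) × κ | x ∈ thickening r (F a.1 a.2)} := by
      rintro ⟨j, a⟩ ha ⟨j', b⟩ hb hab
      simp only at hab
      subst hab
      congr 1
      by_contra hne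
      obtain ⟨p, hp, hxp⟩ := mem_thickening_iff.1 ha
      obtain ⟨q, hq, hyq⟩ := mem_thickening_iff.1 hb
      have h5 := hgap j a b hne p hp q hq
      have h6 := dist_triangle_left p q x
      linarith
    calc {a : Fin (d + 1) × κ | x ∈ thickening r (F a.1 a.2)}.ncard
        = (Prod.fst '' {a : Fin (d + 1) × κ | x ∈ thickening r (F a.1 a.2)}).ncard :=
          hinj.ncard_image.symm
      _ ≤ (univ : Set (Fin (d + 1))).ncard := Set.ncard_le_ncard (subset_univ _) (Set.toFinite _)
      _ = d + 1 := by rw [Set.ncard_univ, Nat.card_fin]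

/-- cohomology vanishes above the dimension -/
theorem geo_vanish {M : Type u} {E : Type v} [MetricSpace M] [NormedAddCommGroup E]
    [NormedSpace ℝ E] {R : ℝ} (G : Geo M E R) [Nonempty M] {d : ℕ}
    (hcol : Col (univ : Set M) d) {k : Type w} [CommRing k] (n : ℕ) (hn : d < n + 1)
    (f : Sing M (n + 1) → k) (hf : altd k (sface (X := M)) (n + 1) f = 0) :
    ∃ g : Sing M n → k, altd k (sface (X := M)) n g = f := by
  classical
  have hR := G.Rpos
  obtain ⟨κ, hκ, V, hVo, hVc, hVd, hVn⟩ := fine_cover hcol (show (0 : ℝ) < R / 4 by linarith)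
  have := Fintype.ofFinite κ
  -- centres
  have hctr : ∀ a : κ, ∃ p : M, (V a).Nonempty → p ∈ V a := by
    intro a
    by_cases h : (V a).Nonempty
    · obtain ⟨p, hp⟩ := h
      exact ⟨p, fun _ => hp⟩
    · exact ⟨Classical.arbitrary M, fun h' => absurd h' h⟩
  choose ctr hctr using hctr
  let VV : (Finset κ)ᵒᵈ → Set M := fun s => {x | ∀ a ∈ OrderDual.ofDual s, x ∈ V a}
  let WW : (Finset κ)ᵒᵈ → Set M :=
    fun s => {x | ∀ a ∈ OrderDual.ofDual s, (V a).Nonempty → dist (ctr a) x < R / 4}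
  let Q : Set (Finset κ)ᵒᵈ := {s | (OrderDual.ofDual s).Nonempty ∧ (VV s).Nonempty}
  have hV : Monotone VV := fun s t hst x hx a ha => hx a (hst ha)
  have hW : Monotone WW := fun s t hst x hx a ha => hx a (hst ha)
  have hVW : ∀ s, VV s ⊆ WW s := by
    intro s x hx a ha hne
    exact hVd a _ (hctr a hne) _ (hx a ha)
  apply vanish_of_cover Q hV hW hVW ?_ ?_ ?_ ?_ d ?_ n hn f hf
  · intro s _
    have : VV s = ⋂ a ∈ OrderDual.ofDual s, V a := by
      ext x; simp only [VV, mem_ofPred_eq, mem_iInter]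
    rw [this]
    exact isOpen_biInter_finset fun a _ => hVo a
  · intro x
    obtain ⟨a, ha⟩ := hVc x
    have hx : x ∈ VV (OrderDual.toDual {a}) := by
      intro b hb
      have : b = a := by simpa using hb
      rw [this]; exact ha
    exact ⟨OrderDual.toDual {a}, ⟨by simp, ⟨x, hx⟩⟩, hx⟩
  · -- cone data
    rintro s ⟨hs1, hs2⟩
    have hne : ∀ a ∈ OrderDual.ofDual s, (V a).Nonempty := by
      intro a ha
      obtain ⟨x, hx⟩ := hs2
      exact ⟨x, hx a ha⟩
    apply G.fam_cone (F := Finset.univ.image ctr) (ρ := R / 4) (by linarith)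
    refine ⟨hs2.mono (hVW s), (OrderDual.ofDual s).image ctr, ?_, hs1.image _, ?_⟩
    · intro p hp
      obtain ⟨a, _, rfl⟩ := Finset.mem_image.mp hp
      exact Finset.mem_image_of_mem _ (Finset.mem_univ a)
    · ext y
      simp only [WW, mem_ofPred_eq, Finset.mem_image]
      constructor
      · rintro h _ ⟨a, ha, rfl⟩
        exact h a ha (hne a ha)
      · intro h a ha _
        exact h _ ⟨a, ha, rfl⟩
  · -- least members
    rintro q σ ⟨C, hC, hσ⟩
    let J : Finset κ := Finset.univ.filter fun a => range σ ⊆ V a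
    have hJ : range σ ⊆ VV (OrderDual.toDual J) := by
      intro x hx a ha
      exact (Finset.mem_filter.mp ha).2 hx
    have hle : ∀ C ∈ Q, range σ ⊆ VV C → OrderDual.toDual J ≤ C := by
      intro C _ hσ a ha
      refine Finset.mem_filter.mpr ⟨Finset.mem_univ _, fun x hx => hσ hx a ha⟩
    refine ⟨OrderDual.toDual J, ⟨?_, (Set.range_nonempty _).mono hJ⟩, hJ, hle⟩
    obtain ⟨a, ha⟩ := hC.1
    exact ⟨a, hle C hC hσ ha⟩
  · -- lengths of chains
    intro p hp
    constructor
    rintro ⟨c, hc, hcQ⟩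
    have hanti : ∀ i j, i < j → (OrderDual.ofDual (c j)).card < (OrderDual.ofDual (c i)).card := by
      intro i j hij
      exact Finset.card_lt_card (hc hij)
    have key : ∀ m : ℕ, ∀ (h : m < p + 1), m + (OrderDual.ofDual (c ⟨m, h⟩)).card ≤
        (OrderDual.ofDual (c 0)).card := by
      intro m
      induction m with
      | zero => intro h; simp
      | succ m ih =>
        intro h
        have h1 := ih (by omega)
        have h2 := hanti ⟨m, by omega⟩ ⟨m + 1, h⟩ (by simp [Fin.lt_def])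
        omega
    have h1 := key p (by omega)
    have h2 : 0 < (OrderDual.ofDual (c ⟨p, by omega⟩)).card := Finset.card_pos.mpr (hcQ _).1
    obtain ⟨x, hx⟩ := (hcQ 0).2
    have h3 : (OrderDual.ofDual (c 0)).card ≤ d + 1 := by
      refine le_trans ?_ (hVn x)
      rw [← Set.ncard_coe_finset]
      apply Set.ncard_le_ncard _ (Set.toFinite _)
      intro a ha
      exact hx a ha
    omega

/-- bounded subsets of Euclidean space -/
theorem col_euclidean {d : ℕ} (A : Set (EuclideanSpace ℝ (Fin d))) (hA : Bornology.IsBounded A) :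
    Col A d := by
  obtain ⟨r, hr⟩ := hA.subset_closedBall 0
  let C : Set (Fin d → ℝ) := Set.pi univ fun _ => Icc (-r) r
  have hC : Col C d := by
    have := Pool.Agent.R292.CovDim.Col.pi (Q := Fin d) (fun _ => Icc (-r) r) (fun _ => 1)
      (fun _ => Pool.Agent.R292.CovDim.Col.Icc _ _)
    have hsum : (∑ _q : Fin d, 1) = d := by simp
    rwa [hsum] at this
  have hCc : IsCompact C := isCompact_univ_pi fun _ => isCompact_Icc
  let e : (Fin d → ℝ) → EuclideanSpace ℝ (Fin d) := (EuclideanSpace.equiv (Fin d) ℝ).symm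
  have h1 := col_image hCc hC e (EuclideanSpace.equiv (Fin d) ℝ).symm.continuous.continuousOn
    (EuclideanSpace.equiv (Fin d) ℝ).symm.injective.injOn
  refine h1.mono ?_ le_rfl
  intro x hx
  refine ⟨EuclideanSpace.equiv (Fin d) ℝ x, ?_, (EuclideanSpace.equiv (Fin d) ℝ).symm_apply_apply x⟩
  intro i _
  have h2 : ‖x‖ ≤ r := by simpa using hr hx
  have h3 : ‖x i‖ ≤ ‖x‖ := PiLp.norm_apply_le x i
  rw [Real.norm_eq_abs] at h3
  exact abs_le.1 (h3.trans h2)

/-- compact manifolds -/
theorem col_manifold {d : ℕ} {M : Type u} [MetricSpace M] [CompactSpace M]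
    [ChartedSpace (EuclideanSpace ℝ (Fin d)) M] : Col (univ : Set M) d := by
  classical
  have hloc : ∀ p : M, ∃ K : Set M, K ∈ nhds p ∧ Col K d := by
    intro p
    set e := chartAt (EuclideanSpace ℝ (Fin d)) p with he
    have hp : p ∈ e.source := mem_chart_source _ p
    have hep : e p ∈ e.target := e.map_source hp
    obtain ⟨r, hr, hball⟩ := Metric.nhds_basis_closedBall.mem_iff.1
      (e.open_target.mem_nhds hep)
    refine ⟨e.symm '' closedBall (e p) r, ?_, ?_⟩
    · have h1 : e.symm '' closedBall (e p) r = e.source ∩ e ⁻¹' closedBall (e p) r :=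
        e.symm_image_eq_source_inter_preimage hball
      rw [h1]
      apply Filter.inter_mem (e.open_source.mem_nhds hp)
      exact (e.continuousAt hp).preimage_mem_nhds (closedBall_mem_nhds _ hr)
    · apply col_image (isCompact_closedBall _ _) (col_euclidean _ isBounded_closedBall)
      · exact e.continuousOn_symm.mono hball
      · exact e.symm.injOn.mono hball
  choose K hK hcol using hloc
  obtain ⟨t, ht⟩ := (isCompact_univ (X := M)).elim_nhds_subcover K (fun p _ => hK p)
  have h1 := Pool.Agent.R292.CovDim.Col.biUnion t K (fun p _ => hcol p)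
  exact h1.mono ht.2 le_rfl

end Pool.Agent.HZ69
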