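import Pool.Agent.HZ69.Fine

/-! An isometry which is infinitesimally the identity at a fixed point is the identity nearby. -/

set_option autoImplicit false

namespace Pool.Agent.Helper381

universe u v w

open Metric Set

namespace Loc

variable {M : Type u} {E : Type v} [MetricSpace M] [NormedAddCommGroup E] [NormedSpace ℝ E]
  (c : Loc M E)

theorem coord {y : M} (hy : dist (c.ψ c.x₀) y < c.τ) :
    c.φ y ∈ ball c.x₀ c.r ∧ c.ψ (c.φ y) = y ∧ ‖c.φ y - c.x₀‖ ≤ c.L * dist (c.ψ c.x₀) y := by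
  obtain ⟨w, hw, hwy, hn⟩ := c.in_chart (mem_ball_self c.r₁pos) hy
  have h : c.φ y = w := by rw [← hwy, c.φψ w hw]
  rw [h]; exact ⟨hw, hwy, hn⟩

theorem exists_fine
    (hmid : ∀ x y : M, ∃ m : M, dist x m = dist x y / 2 ∧ dist m y = dist x y / 2) :
    ∃ ρ₀ : ℝ, 0 < ρ₀ ∧ ρ₀ ≤ c.r₁ ∧
      (∀ z ∈ ball c.x₀ ρ₀, ∀ u ∈ ball c.x₀ ρ₀, ∀ v ∈ ball c.x₀ ρ₀,
        dist (c.ψ z) (c.ψ ((1 / 2 : ℝ) • (u + v))) ^ 2 ≤
          (dist (c.ψ z) (c.ψ u) ^ 2 + dist (c.ψ z) (c.ψ v) ^ 2) / 2 -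
            49 / 200 * c.G c.x₀ (u - v) (u - v)) ∧
      (∀ z ∈ ball c.x₀ ρ₀, ∀ u ∈ ball c.x₀ ρ₀, ∀ v ∈ ball c.x₀ ρ₀,
        (dist (c.ψ z) (c.ψ u) ^ 2 + dist (c.ψ z) (c.ψ v) ^ 2) / 2 -
          51 / 200 * c.G c.x₀ (u - v) (u - v) ≤
        dist (c.ψ z) (c.ψ ((1 / 2 : ℝ) • (u + v))) ^ 2) := by
  obtain ⟨ρ, hρ0, hρ1, hρτ, hsmall⟩ := c.exists_rhoF
  have hL := c.one_le_L
  refine ⟨ρ / (2 + 2 * c.L ^ 2), by positivity, ?_, ?_, ?_⟩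
  · refine le_trans ?_ hρ1
    apply div_le_self hρ0.le
    nlinarith
  · intro z hz u hu v hv
    exact c.sc_localF hmid hρ0 hρ1 hρτ hsmall hz hu hv
  · intro z hz u hu v hv
    exact c.scc_localF hmid hρ0 hρ1 hρτ hsmall hz hu hv

/-- the quadratic form of the centre is close to the squared distance -/
theorem dist_sq_near {x y : E} (hx : x ∈ ball c.x₀ c.r₁) (hy : y ∈ ball c.x₀ c.r₁) :
    |dist (c.ψ x) (c.ψ y) ^ 2 - c.G c.x₀ (y - x) (y - x)| ≤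
      c.C₃ * ‖y - x‖ ^ 3 + c.C * ‖x - c.x₀‖ * ‖y - x‖ ^ 2 := by
  have h1 := c.dist_sq_le' hx hy
  have h2 := c.le_dist_sq' hx hy
  have h3 := c.lip x (c.ball_sub hx) c.x₀ (mem_ball_self c.rpos) (y - x) (y - x)
  have h4 : c.C * ‖x - c.x₀‖ * ‖y - x‖ * ‖y - x‖ = c.C * ‖x - c.x₀‖ * ‖y - x‖ ^ 2 := by ring
  rw [h4] at h3
  rw [abs_le] at *
  constructor <;> linarith [h3.1, h3.2]

theorem half_identity (a b : E) :
    c.G c.x₀ (a - (1 / 2 : ℝ) • b) (a - (1 / 2 : ℝ) • b) =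
      (1 / 2) * c.G c.x₀ a a + (1 / 2) * c.G c.x₀ (a - b) (a - b) - (1 / 4) * c.G c.x₀ b b := by
  have hs := c.symm c.x₀ (mem_ball_self c.rpos) a b
  simp only [map_sub, map_smul, LinearMap.sub_apply, LinearMap.smul_apply, smul_eq_mul, ← hs]
  ring

theorem half_est (t : M → M) (ht : ∀ x y, dist (t x) (t y) = dist x y)
    (htp : t (c.ψ c.x₀) = c.ψ c.x₀) :
    ∃ K > 0, ∃ r₂ > 0, r₂ ≤ c.r₁ ∧ ∀ v : E, ‖v‖ < r₂ →
      ‖(c.φ (t (c.ψ (c.x₀ + (1 / 2 : ℝ) • v))) - c.x₀) -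
        (1 / 2 : ℝ) • (c.φ (t (c.ψ (c.x₀ + v))) - c.x₀)‖ ^ 2 ≤ K * ‖v‖ ^ 3 := by
  have hL := c.one_le_L
  have hC := c.Cpos
  have hC3 := c.C₃pos
  have hlam := c.lampos
  have hr1 := c.r₁pos
  have hτ := c.τpos
  set Λ := c.L ^ 2 with hΛ
  have hΛ1 : 1 ≤ Λ := by rw [hΛ]; nlinarith
  set K₁ := 2 * (c.C₃ * (1 + Λ ^ 3)) + (c.C₃ + c.C + 8 * c.C₃ * Λ ^ 3 + 4 * c.C * Λ ^ 3) with hK₁
  have hK₁pos : 0 < K₁ := by positivity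
  refine ⟨K₁ / c.lam, by positivity, min (c.r₁ / Λ) (c.τ / c.L), by positivity, ?_, ?_⟩
  · exact (min_le_left _ _).trans (div_le_self hr1.le hΛ1)
  intro v hv
  have hv1 : ‖v‖ * Λ < c.r₁ := by
    have := hv.trans_le (min_le_left _ _)
    rwa [lt_div_iff₀ (by linarith)] at this
  have hv2 : ‖v‖ * c.L < c.τ := by
    have := hv.trans_le (min_le_right _ _)
    rwa [lt_div_iff₀ (by linarith)] at this
  have hvr : ‖v‖ < c.r₁ := by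
    have := norm_nonneg v
    nlinarith
  have hx0 : c.x₀ ∈ ball c.x₀ c.r₁ := mem_ball_self hr1
  -- general facts about a point x₀ + v
  have gen : ∀ v : E, ‖v‖ * Λ < c.r₁ → ‖v‖ * c.L < c.τ → c.x₀ + v ∈ ball c.x₀ c.r₁ ∧
      c.φ (t (c.ψ (c.x₀ + v))) ∈ ball c.x₀ c.r₁ ∧
      c.ψ (c.φ (t (c.ψ (c.x₀ + v)))) = t (c.ψ (c.x₀ + v)) ∧
      ‖c.φ (t (c.ψ (c.x₀ + v))) - c.x₀‖ ≤ Λ * ‖v‖ ∧
      |c.G c.x₀ (c.φ (t (c.ψ (c.x₀ + v))) - c.x₀) (c.φ (t (c.ψ (c.x₀ + v))) - c.x₀) -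
        c.G c.x₀ v v| ≤ c.C₃ * (1 + Λ ^ 3) * ‖v‖ ^ 3 := by
    intro v hv1 hv2
    have hn := norm_nonneg v
    have hvr : ‖v‖ < c.r₁ := by nlinarith
    have m1 : c.x₀ + v ∈ ball c.x₀ c.r₁ := by
      rw [mem_ball, dist_eq_norm, add_sub_cancel_left]; exact hvr
    have d1 : dist (c.ψ c.x₀) (c.ψ (c.x₀ + v)) ≤ c.L * ‖v‖ := by
      have := c.dist_le hx0 m1
      rwa [add_sub_cancel_left] at this
    have d2 : dist (c.ψ c.x₀) (t (c.ψ (c.x₀ + v))) = dist (c.ψ c.x₀) (c.ψ (c.x₀ + v)) := by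
      conv_lhs => rw [← htp]
      exact ht _ _
    obtain ⟨m2, m3, m4⟩ := c.coord (y := t (c.ψ (c.x₀ + v))) (by rw [d2]; linarith)
    have m5 : ‖c.φ (t (c.ψ (c.x₀ + v))) - c.x₀‖ ≤ Λ * ‖v‖ := by
      refine m4.trans ?_
      rw [d2, hΛ]
      nlinarith
    have m6 : c.φ (t (c.ψ (c.x₀ + v))) ∈ ball c.x₀ c.r₁ := by
      rw [mem_ball, dist_eq_norm]; linarith
    refine ⟨m1, m6, m3, m5, ?_⟩
    have e1 := c.dist_sq_near hx0 m1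
    have e2 := c.dist_sq_near hx0 m6
    rw [m3, d2] at e2
    simp only [sub_self, norm_zero, mul_zero, zero_mul, add_zero, add_sub_cancel_left] at e1 e2
    have e3 : c.C₃ * ‖c.φ (t (c.ψ (c.x₀ + v))) - c.x₀‖ ^ 3 ≤ c.C₃ * (Λ * ‖v‖) ^ 3 := by
      gcongr
    have e4 : c.C₃ * (Λ * ‖v‖) ^ 3 = c.C₃ * Λ ^ 3 * ‖v‖ ^ 3 := by ring
    rw [abs_le] at *
    constructor <;> nlinarith [e1.1, e1.2, e2.1, e2.2]
  have hn := norm_nonneg v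
  have hhalf : ‖(1 / 2 : ℝ) • v‖ = ‖v‖ / 2 := by
    rw [norm_smul]
    have : ‖(1 / 2 : ℝ)‖ = 1 / 2 := by norm_num
    rw [this]; ring
  obtain ⟨a1, a2, a3, a4, a5⟩ := gen v hv1 hv2
  obtain ⟨b1, b2, b3, b4, b5⟩ := gen ((1 / 2 : ℝ) • v) (by rw [hhalf]; nlinarith)
    (by rw [hhalf]; nlinarith)
  rw [hhalf] at b4 b5
  set x1 := c.φ (t (c.ψ (c.x₀ + v))) with hx1
  set x2 := c.φ (t (c.ψ (c.x₀ + (1 / 2 : ℝ) • v))) with hx2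
  -- distance between the two points
  have c1 := c.dist_sq_near b1 a1
  have c2 := c.dist_sq_near b2 a2
  rw [a3, b3, ht] at c2
  have n1 : c.x₀ + v - (c.x₀ + (1 / 2 : ℝ) • v) = (1 / 2 : ℝ) • v := by module
  have n2 : c.x₀ + (1 / 2 : ℝ) • v - c.x₀ = (1 / 2 : ℝ) • v := by module
  rw [n1, n2, hhalf] at c1
  have n3 : ‖x1 - x2‖ ≤ 2 * Λ * ‖v‖ := by
    have : x1 - x2 = (x1 - c.x₀) - (x2 - c.x₀) := by abel
    rw [this]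
    refine (norm_sub_le _ _).trans ?_
    nlinarith
  have c3 : c.C₃ * ‖x1 - x2‖ ^ 3 + c.C * ‖x2 - c.x₀‖ * ‖x1 - x2‖ ^ 2 ≤
      8 * c.C₃ * Λ ^ 3 * ‖v‖ ^ 3 + 4 * c.C * Λ ^ 3 * ‖v‖ ^ 3 := by
    have e1 : c.C₃ * ‖x1 - x2‖ ^ 3 ≤ c.C₃ * (2 * Λ * ‖v‖) ^ 3 := by gcongr
    have e2 : c.C * ‖x2 - c.x₀‖ * ‖x1 - x2‖ ^ 2 ≤ c.C * (Λ * (‖v‖ / 2)) * (2 * Λ * ‖v‖) ^ 2 := by
      gcongr
    have e3 : c.C₃ * (2 * Λ * ‖v‖) ^ 3 = 8 * c.C₃ * Λ ^ 3 * ‖v‖ ^ 3 := by ring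
    have e4 : c.C * (Λ * (‖v‖ / 2)) * (2 * Λ * ‖v‖) ^ 2 = 2 * c.C * Λ ^ 3 * ‖v‖ ^ 3 := by ring
    have e5 : 0 ≤ c.C * Λ ^ 3 * ‖v‖ ^ 3 := by positivity
    linarith
  have c4 : c.C₃ * (‖v‖ / 2) ^ 3 + c.C * (‖v‖ / 2) * (‖v‖ / 2) ^ 2 ≤ (c.C₃ + c.C) * ‖v‖ ^ 3 := by
    have e5 : 0 ≤ c.C * ‖v‖ ^ 3 := by positivity
    have e6 : 0 ≤ c.C₃ * ‖v‖ ^ 3 := by positivity
    nlinarith
  have id1 := c.half_identity (x2 - c.x₀) (x1 - c.x₀)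
  have n4 : c.G c.x₀ (x2 - c.x₀ - (x1 - c.x₀)) (x2 - c.x₀ - (x1 - c.x₀)) =
      c.G c.x₀ (x1 - x2) (x1 - x2) := by
    have : x2 - c.x₀ - (x1 - c.x₀) = -(x1 - x2) := by abel
    rw [this, map_neg, map_neg, LinearMap.neg_apply, neg_neg]
  rw [n4] at id1
  have n5 : c.G c.x₀ ((1 / 2 : ℝ) • v) ((1 / 2 : ℝ) • v) = (1 / 4) * c.G c.x₀ v v := by
    simp only [map_smul, LinearMap.smul_apply, smul_eq_mul]; ring
  rw [n5] at c1 b5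
  have b6 : c.C₃ * (1 + Λ ^ 3) * (‖v‖ / 2) ^ 3 ≤ c.C₃ * (1 + Λ ^ 3) * ‖v‖ ^ 3 := by
    gcongr; linarith
  have hmain : c.G c.x₀ ((x2 - c.x₀) - (1 / 2 : ℝ) • (x1 - c.x₀))
      ((x2 - c.x₀) - (1 / 2 : ℝ) • (x1 - c.x₀)) ≤ K₁ * ‖v‖ ^ 3 := by
    rw [id1]
    rw [abs_le] at a5 b5 c1 c2
    have e7 : 0 ≤ c.C₃ * (1 + Λ ^ 3) * ‖v‖ ^ 3 := by positivity
    have e8 : K₁ * ‖v‖ ^ 3 = 2 * (c.C₃ * (1 + Λ ^ 3) * ‖v‖ ^ 3) + (c.C₃ + c.C) * ‖v‖ ^ 3 +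
      (8 * c.C₃ * Λ ^ 3 * ‖v‖ ^ 3 + 4 * c.C * Λ ^ 3 * ‖v‖ ^ 3) := by rw [hK₁]; ring
    rw [e8]
    linarith [a5.1, a5.2, b5.1, b5.2, c1.1, c1.2, c2.1, c2.2]
  have hlow := c.lower c.x₀ (mem_ball_self c.rpos) ((x2 - c.x₀) - (1 / 2 : ℝ) • (x1 - c.x₀))
  rw [div_mul_eq_mul_div, le_div_iff₀ hlam]
  linarith

/-- `τ(x₀ + v) = x₀ + v + O(‖v‖ ^ (3/2))` for an isometry which is infinitesimally the identity -/
theorem disp_est (t : M → M) (ht : ∀ x y, dist (t x) (t y) = dist x y)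
    (htp : t (c.ψ c.x₀) = c.ψ c.x₀)
    (hd : ∀ ε > 0, ∃ δ > 0, ∀ v : E, ‖v‖ < δ →
      ‖c.φ (t (c.ψ (c.x₀ + v))) - c.x₀ - v‖ ≤ ε * ‖v‖) :
    ∃ K > 0, ∃ r₂ > 0, r₂ ≤ c.r₁ ∧ ∀ v : E, ‖v‖ < r₂ →
      ‖c.φ (t (c.ψ (c.x₀ + v))) - c.x₀ - v‖ ^ 2 ≤ K * ‖v‖ ^ 3 := by
  obtain ⟨K, hK, r₂, hr₂, hr₂1, hest⟩ := c.half_est t ht htp
  refine ⟨64 * K, by positivity, r₂, hr₂, hr₂1, ?_⟩
  intro v hv
  set e : E → E := fun v => c.φ (t (c.ψ (c.x₀ + v))) - c.x₀ - v with he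
  have hn := norm_nonneg v
  set s := Real.sqrt (K * ‖v‖) with hs
  have hs0 : 0 ≤ s := Real.sqrt_nonneg _
  have hss : s ^ 2 = K * ‖v‖ := Real.sq_sqrt (by positivity)
  -- one step
  have step : ∀ w : E, ‖w‖ < r₂ → ∀ b : ℝ, 0 ≤ b → K * ‖w‖ ≤ b ^ 2 →
      ‖e w‖ ≤ 2 * ‖e ((1 / 2 : ℝ) • w)‖ + 2 * (‖w‖ * b) := by
    intro w hw b hb hKb
    have h1 := hest w hw
    have h2 : (c.φ (t (c.ψ (c.x₀ + (1 / 2 : ℝ) • w))) - c.x₀) -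
        (1 / 2 : ℝ) • (c.φ (t (c.ψ (c.x₀ + w))) - c.x₀) =
        e ((1 / 2 : ℝ) • w) - (1 / 2 : ℝ) • e w := by
      simp only [he]; module
    rw [h2] at h1
    have h3 : ‖e ((1 / 2 : ℝ) • w) - (1 / 2 : ℝ) • e w‖ ≤ ‖w‖ * b := by
      have h4 : ‖e ((1 / 2 : ℝ) • w) - (1 / 2 : ℝ) • e w‖ ^ 2 ≤ (‖w‖ * b) ^ 2 := by
        refine h1.trans ?_
        have : K * ‖w‖ ^ 3 = ‖w‖ ^ 2 * (K * ‖w‖) := by ring
        rw [this, mul_pow]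
        gcongr
      exact (pow_le_pow_iff_left₀ (norm_nonneg _) (by positivity) two_ne_zero).mp h4
    have h5 : e w = (2 : ℝ) • (e ((1 / 2 : ℝ) • w)) -
        (2 : ℝ) • (e ((1 / 2 : ℝ) • w) - (1 / 2 : ℝ) • e w) := by module
    calc ‖e w‖ = ‖(2 : ℝ) • (e ((1 / 2 : ℝ) • w)) -
        (2 : ℝ) • (e ((1 / 2 : ℝ) • w) - (1 / 2 : ℝ) • e w)‖ := by rw [← h5]
      _ ≤ ‖(2 : ℝ) • (e ((1 / 2 : ℝ) • w))‖ +
          ‖(2 : ℝ) • (e ((1 / 2 : ℝ) • w) - (1 / 2 : ℝ) • e w)‖ := norm_sub_le _ _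
      _ ≤ _ := by
        rw [norm_smul, norm_smul]
        have : ‖(2 : ℝ)‖ = 2 := by norm_num
        rw [this]
        linarith
  -- iteration
  have hnorm : ∀ k : ℕ, ‖((1 / 2 : ℝ) ^ k) • v‖ = (1 / 2 : ℝ) ^ k * ‖v‖ := by
    intro k
    rw [norm_smul, Real.norm_of_nonneg (by positivity)]
  have iter : ∀ n : ℕ, ‖e v‖ ≤ 2 ^ n * ‖e (((1 / 2 : ℝ) ^ n) • v)‖ +
      8 * (‖v‖ * s) * (1 - (3 / 4 : ℝ) ^ n) := by
    intro n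
    induction n with
    | zero => simp
    | succ n ih =>
      have h1 : ‖((1 / 2 : ℝ) ^ n) • v‖ < r₂ := by
        rw [hnorm]
        have : (1 / 2 : ℝ) ^ n ≤ 1 := pow_le_one₀ (by norm_num) (by norm_num)
        nlinarith
      have h2 := step _ h1 ((3 / 4 : ℝ) ^ n * s) (by positivity) (by
        rw [hnorm, mul_pow, hss]
        have e1 : (1 / 2 : ℝ) ^ n ≤ ((3 / 4 : ℝ) ^ n) ^ 2 := by
          rw [← pow_mul, mul_comm n 2, pow_mul]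
          exact pow_le_pow_left₀ (by norm_num) (by norm_num) n
        have e2 : K * ((1 / 2 : ℝ) ^ n * ‖v‖) = (1 / 2 : ℝ) ^ n * (K * ‖v‖) := by ring
        rw [e2]
        gcongr)
      have h3 : (1 / 2 : ℝ) • (((1 / 2 : ℝ) ^ n) • v) = ((1 / 2 : ℝ) ^ (n + 1)) • v := by
        rw [smul_smul, pow_succ]; ring_nf
      rw [h3, hnorm] at h2
      have h4 : (2 : ℝ) ^ n * ‖e (((1 / 2 : ℝ) ^ n) • v)‖ ≤
          2 ^ n * (2 * ‖e (((1 / 2 : ℝ) ^ (n + 1)) • v)‖ +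
            2 * ((1 / 2 : ℝ) ^ n * ‖v‖ * ((3 / 4 : ℝ) ^ n * s))) := by gcongr
      have h5 : (2 : ℝ) ^ n * (2 * ‖e (((1 / 2 : ℝ) ^ (n + 1)) • v)‖ +
            2 * ((1 / 2 : ℝ) ^ n * ‖v‖ * ((3 / 4 : ℝ) ^ n * s))) =
          2 ^ (n + 1) * ‖e (((1 / 2 : ℝ) ^ (n + 1)) • v)‖ + 2 * (‖v‖ * s) * (3 / 4 : ℝ) ^ n := by
        have : (2 : ℝ) ^ n * (1 / 2 : ℝ) ^ n = 1 := by
          rw [← mul_pow]; norm_num
        calc _ = 2 ^ (n + 1) * ‖e (((1 / 2 : ℝ) ^ (n + 1)) • v)‖ +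
              2 * (‖v‖ * s) * (3 / 4 : ℝ) ^ n * ((2 : ℝ) ^ n * (1 / 2 : ℝ) ^ n) := by
                rw [pow_succ 2 n]; ring
          _ = _ := by rw [this, mul_one]
      rw [h5] at h4
      have h6 : (3 / 4 : ℝ) ^ (n + 1) = (3 / 4 : ℝ) ^ n * (3 / 4) := pow_succ _ _
      rw [h6]
      nlinarith
  have hfin : ‖e v‖ ≤ 8 * (‖v‖ * s) := by
    apply le_of_forall_pos_le_add
    intro η hη
    rcases eq_or_ne v 0 with hv0 | hv0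
    · have h1 : ‖e v‖ = 0 := by
        have h2 := iter 0
        obtain ⟨δ, hδ, h3⟩ := hd 1 one_pos
        have h4 := h3 v (by rw [hv0, norm_zero]; exact hδ)
        rw [hv0, norm_zero, mul_zero] at h4
        have h5 : ‖e v‖ ≤ 0 := by rw [hv0]; exact h4
        exact le_antisymm h5 (norm_nonneg _)
      rw [h1]; positivity
    have hvpos : 0 < ‖v‖ := norm_pos_iff.mpr hv0
    obtain ⟨δ, hδ, h3⟩ := hd (η / ‖v‖) (by positivity)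
    obtain ⟨n, hn'⟩ := exists_pow_lt_of_lt_one (show 0 < δ / ‖v‖ by positivity)
      (show (1 / 2 : ℝ) < 1 by norm_num)
    have h4 := h3 (((1 / 2 : ℝ) ^ n) • v) (by
      rw [hnorm]
      rwa [lt_div_iff₀ hvpos] at hn')
    rw [hnorm] at h4
    have h5 := iter n
    have h6 : (2 : ℝ) ^ n * ‖e (((1 / 2 : ℝ) ^ n) • v)‖ ≤ η := by
      have h7 : (2 : ℝ) ^ n * ‖e (((1 / 2 : ℝ) ^ n) • v)‖ ≤
          2 ^ n * (η / ‖v‖ * ((1 / 2 : ℝ) ^ n * ‖v‖)) := by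
        gcongr
      have h8 : (2 : ℝ) ^ n * (η / ‖v‖ * ((1 / 2 : ℝ) ^ n * ‖v‖)) = η := by
        have : (2 : ℝ) ^ n * (1 / 2 : ℝ) ^ n = 1 := by
          rw [← mul_pow]; norm_num
        calc _ = η / ‖v‖ * ‖v‖ * ((2 : ℝ) ^ n * (1 / 2 : ℝ) ^ n) := by ring
          _ = η := by rw [this, mul_one]; field_simp
      linarith
    have h9 : 8 * (‖v‖ * s) * (1 - (3 / 4 : ℝ) ^ n) ≤ 8 * (‖v‖ * s) := by
      have : 0 ≤ (3 / 4 : ℝ) ^ n := by positivity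
      have h10 : 0 ≤ 8 * (‖v‖ * s) := by positivity
      nlinarith
    linarith
  change ‖e v‖ ^ 2 ≤ _
  calc ‖e v‖ ^ 2 ≤ (8 * (‖v‖ * s)) ^ 2 := by gcongr
    _ = 64 * (‖v‖ ^ 2 * s ^ 2) := by ring
    _ = _ := by rw [hss]; ring

/-- a point at one eighth of the distance -/
theorem exists_eighth
    (hmid : ∀ x y : M, ∃ m : M, dist x m = dist x y / 2 ∧ dist m y = dist x y / 2) (x y : M) :
    ∃ m : M, dist x m = dist x y / 8 ∧ dist m y = 7 / 8 * dist x y := by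
  obtain ⟨m1, a1, b1⟩ := hmid x y
  obtain ⟨m2, a2, b2⟩ := hmid x m1
  obtain ⟨m3, a3, b3⟩ := hmid x m2
  have h0 : dist x m3 = dist x y / 8 := by rw [a3, a2, a1]; ring
  refine ⟨m3, h0, le_antisymm ?_ ?_⟩
  · have h1 := dist_triangle4 m3 m2 m1 y
    rw [b3, b2, b1, a2, a1] at h1
    linarith
  · have h1 := dist_triangle x m3 y
    rw [h0] at h1
    linarith

/-- expansion of displacements along geodesics -/
theorem eighth_est (t : M → M) (ht : ∀ x y, dist (t x) (t y) = dist x y)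
    (htp : t (c.ψ c.x₀) = c.ψ c.x₀) {ρ₀ : ℝ} (hρ₀ : 0 < ρ₀)
    (hsc : ∀ z ∈ ball c.x₀ ρ₀, ∀ u ∈ ball c.x₀ ρ₀, ∀ v ∈ ball c.x₀ ρ₀,
        dist (c.ψ z) (c.ψ ((1 / 2 : ℝ) • (u + v))) ^ 2 ≤
          (dist (c.ψ z) (c.ψ u) ^ 2 + dist (c.ψ z) (c.ψ v) ^ 2) / 2 -
            49 / 200 * c.G c.x₀ (u - v) (u - v))
    (hscc : ∀ z ∈ ball c.x₀ ρ₀, ∀ u ∈ ball c.x₀ ρ₀, ∀ v ∈ ball c.x₀ ρ₀,
        (dist (c.ψ z) (c.ψ u) ^ 2 + dist (c.ψ z) (c.ψ v) ^ 2) / 2 -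
          51 / 200 * c.G c.x₀ (u - v) (u - v) ≤
        dist (c.ψ z) (c.ψ ((1 / 2 : ℝ) • (u + v))) ^ 2)
    {y m : M} (hy1 : dist (c.ψ c.x₀) y < c.τ) (hy2 : 3 * (c.L * dist (c.ψ c.x₀) y) < ρ₀)
    (hm1 : dist (c.ψ c.x₀) m = dist (c.ψ c.x₀) y / 8)
    (hm2 : dist m y = 7 / 8 * dist (c.ψ c.x₀) y) :
    c.G c.x₀ (c.φ y - c.φ (t y)) (c.φ y - c.φ (t y)) ≤
      374 * c.G c.x₀ (c.φ m - c.φ (t m)) (c.φ m - c.φ (t m)) := by
  set p := c.ψ c.x₀ with hp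
  set ℓ := dist p y with hℓ
  have hℓ0 : 0 ≤ ℓ := dist_nonneg
  have hL := c.one_le_L
  have hLℓ : 0 ≤ c.L * ℓ := by positivity
  have hdt : ∀ z, dist p (t z) = dist p z := by
    intro z
    conv_lhs => rw [← htp]
    exact ht _ _
  have hτ : ∀ z, dist p z ≤ ℓ → c.φ z ∈ ball c.x₀ ρ₀ ∧ c.ψ (c.φ z) = z ∧
      ‖c.φ z - c.x₀‖ ≤ c.L * ℓ := by
    intro z hz
    obtain ⟨h1, h2, h3⟩ := c.coord (lt_of_le_of_lt hz hy1)
    have h4 : ‖c.φ z - c.x₀‖ ≤ c.L * ℓ := h3.trans (by gcongr)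
    refine ⟨?_, h2, h4⟩
    rw [mem_ball, dist_eq_norm]
    linarith
  have hx0 : c.x₀ ∈ ball c.x₀ ρ₀ := mem_ball_self hρ₀
  obtain ⟨y1, y2, y3⟩ := hτ y le_rfl
  obtain ⟨z1, z2, z3⟩ := hτ (t y) (by rw [hdt])
  obtain ⟨m1, m2, m3⟩ := hτ m (by rw [hm1]; linarith)
  obtain ⟨n1, n2, n3⟩ := hτ (t m) (by rw [hdt, hm1]; linarith)
  -- reflection
  set us : E := (2 : ℝ) • c.φ (t m) - c.φ m with hus
  have hus1 : us ∈ ball c.x₀ ρ₀ := by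
    rw [mem_ball, dist_eq_norm]
    have e1 : us - c.x₀ = (2 : ℝ) • (c.φ (t m) - c.x₀) - (c.φ m - c.x₀) := by
      rw [hus]; module
    rw [e1]
    refine lt_of_le_of_lt (norm_sub_le _ _) ?_
    rw [norm_smul]
    have : ‖(2 : ℝ)‖ = 2 := by norm_num
    rw [this]
    linarith
  have husm : (1 / 2 : ℝ) • (c.φ m + us) = c.φ (t m) := by rw [hus]; module
  have husd : c.φ m - us = (2 : ℝ) • (c.φ m - c.φ (t m)) := by rw [hus]; module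
  set A := c.G c.x₀ (c.φ y - c.φ (t y)) (c.φ y - c.φ (t y)) with hA
  set B := c.G c.x₀ (c.φ m - c.φ (t m)) (c.φ m - c.φ (t m)) with hB
  have hB4 : c.G c.x₀ (c.φ m - us) (c.φ m - us) = 4 * B := by
    rw [husd, hB]
    simp only [map_smul, LinearMap.smul_apply, smul_eq_mul]; ring
  -- (i)
  have i1 := hscc c.x₀ hx0 _ y1 _ z1
  rw [y2, z2, ← hp, hdt] at i1
  set N := c.ψ ((1 / 2 : ℝ) • (c.φ y + c.φ (t y))) with hN
  -- (ii)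
  have i2 : dist p N ^ 2 ≤ 8 * (ℓ / 8) ^ 2 + 8 / 7 * dist m N ^ 2 := by
    have h1 := dist_triangle p m N
    rw [hm1] at h1
    have h2 : dist p N ^ 2 ≤ (ℓ / 8 + dist m N) ^ 2 := pow_le_pow_left₀ dist_nonneg h1 2
    nlinarith [sq_nonneg (ℓ / 8 * 7 - dist m N)]
  -- (iii)
  have i3 := hsc _ m1 _ y1 _ z1
  rw [m2, y2, z2, hm2] at i3
  -- (iv)
  have i4 := hscc c.x₀ hx0 _ m1 _ hus1
  rw [husm, n2, m2, ← hp, hdt, hm1, hB4] at i4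
  have i5 := hscc _ z1 _ m1 _ hus1
  rw [husm, n2, m2, z2, hB4, ht, dist_comm y m, hm2] at i5
  have i6 : ℓ ^ 2 ≤ 8 * dist p (c.ψ us) ^ 2 + 8 / 7 * dist (t y) (c.ψ us) ^ 2 := by
    have h1 := dist_triangle p (c.ψ us) (t y)
    rw [hdt, dist_comm (c.ψ us) (t y)] at h1
    have h2 : ℓ ^ 2 ≤ (dist p (c.ψ us) + dist (t y) (c.ψ us)) ^ 2 := pow_le_pow_left₀ hℓ0 h1 2
    nlinarith [sq_nonneg (dist p (c.ψ us) * 7 - dist (t y) (c.ψ us))]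
  rw [dist_comm (t y) m] at i5
  change (ℓ ^ 2 + ℓ ^ 2) / 2 - 51 / 200 * A ≤ dist p N ^ 2 at i1
  change dist m N ^ 2 ≤ ((7 / 8 * ℓ) ^ 2 + dist m (t y) ^ 2) / 2 - 49 / 200 * A at i3
  have hB0 : 0 ≤ B := c.nonneg (mem_ball_self c.rpos) _
  linarith [i1, i2, i3, i4, i5, i6]

/-- an isometry which is infinitesimally the identity at a fixed point is the identity nearby -/
theorem near_id
    (hmid : ∀ x y : M, ∃ m : M, dist x m = dist x y / 2 ∧ dist m y = dist x y / 2)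
    (t : M → M) (ht : ∀ x y, dist (t x) (t y) = dist x y)
    (htp : t (c.ψ c.x₀) = c.ψ c.x₀)
    (hd : ∀ ε > 0, ∃ δ > 0, ∀ v : E, ‖v‖ < δ →
      ‖c.φ (t (c.ψ (c.x₀ + v))) - c.x₀ - v‖ ≤ ε * ‖v‖) :
    ∃ δ > 0, ∀ y, dist (c.ψ c.x₀) y < δ → t y = y := by
  obtain ⟨ρ₀, hρ₀, hρ₁, hsc, hscc⟩ := c.exists_fine hmid
  obtain ⟨K, hK, r₂, hr₂, hr₂1, hest⟩ := c.disp_est t ht htp hd
  have hL := c.one_le_L
  have hτ := c.τpos
  have hC := c.Cpos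
  set p := c.ψ c.x₀ with hp
  refine ⟨min c.τ (min (ρ₀ / (3 * c.L)) (r₂ / c.L)), by positivity, ?_⟩
  intro y hy
  have hy1 : dist p y < c.τ := hy.trans_le (min_le_left _ _)
  have hy2 : 3 * (c.L * dist p y) < ρ₀ := by
    have := hy.trans_le ((min_le_right _ _).trans (min_le_left _ _))
    rw [lt_div_iff₀ (by positivity)] at this
    linarith
  have hy3 : c.L * dist p y < r₂ := by
    have := hy.trans_le ((min_le_right _ _).trans (min_le_right _ _))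
    rw [lt_div_iff₀ (by positivity)] at this
    linarith
  set ℓ := dist p y with hℓ
  have hℓ0 : 0 ≤ ℓ := dist_nonneg
  -- iterated points
  have key : ∀ k : ℕ, ∃ z, dist p z = ℓ / 8 ^ k ∧
      c.G c.x₀ (c.φ y - c.φ (t y)) (c.φ y - c.φ (t y)) ≤
        374 ^ k * c.G c.x₀ (c.φ z - c.φ (t z)) (c.φ z - c.φ (t z)) := by
    intro k
    induction k with
    | zero => exact ⟨y, by simp [hℓ], by simp⟩
    | succ k ih =>
      obtain ⟨z, hz1, hz2⟩ := ih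
      obtain ⟨m, hm1, hm2⟩ := exists_eighth hmid p z
      have hzle : dist p z ≤ ℓ := by
        rw [hz1]
        exact div_le_self hℓ0 (one_le_pow₀ (by norm_num))
      have h1 := c.eighth_est t ht htp hρ₀ hsc hscc (lt_of_le_of_lt hzle hy1)
        (lt_of_le_of_lt (by gcongr) hy2) hm1 hm2
      refine ⟨m, ?_, ?_⟩
      · rw [hm1, hz1, pow_succ]; field_simp
      · refine hz2.trans ?_
        rw [pow_succ, mul_assoc]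
        gcongr
  have hbound : ∀ k : ℕ, c.G c.x₀ (c.φ y - c.φ (t y)) (c.φ y - c.φ (t y)) ≤
      (374 / 512 : ℝ) ^ k * (c.C * K * (c.L * ℓ) ^ 3) := by
    intro k
    obtain ⟨z, hz1, hz2⟩ := key k
    refine hz2.trans ?_
    have hzle : dist p z ≤ ℓ := by
      rw [hz1]
      exact div_le_self hℓ0 (one_le_pow₀ (by norm_num))
    obtain ⟨a1, a2, a3⟩ := c.coord (y := z) (lt_of_le_of_lt hzle hy1)
    have h1 : ‖c.φ z - c.x₀‖ < r₂ :=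
      lt_of_le_of_lt (a3.trans (by gcongr)) hy3
    have h2 := hest (c.φ z - c.x₀) h1
    rw [add_sub_cancel, a2] at h2
    have h3 : c.φ (t z) - c.x₀ - (c.φ z - c.x₀) = -(c.φ z - c.φ (t z)) := by abel
    rw [h3, norm_neg] at h2
    have h4 := c.upper c.x₀ (mem_ball_self c.rpos) (c.φ z - c.φ (t z))
    have h5 : ‖c.φ z - c.x₀‖ ^ 3 ≤ (c.L * (ℓ / 8 ^ k)) ^ 3 := by
      rw [hz1] at a3
      gcongr
    calc (374 : ℝ) ^ k * c.G c.x₀ (c.φ z - c.φ (t z)) (c.φ z - c.φ (t z))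
        ≤ 374 ^ k * (c.C * (K * (c.L * (ℓ / 8 ^ k)) ^ 3)) := by
          gcongr
          refine h4.trans ?_
          gcongr
          exact h2.trans (by gcongr)
      _ = _ := by
          have e1 : ((8 : ℝ) ^ k) ^ 3 = 512 ^ k := by
            rw [← pow_mul, mul_comm k 3, pow_mul]; norm_num
          have e2 : (c.L * (ℓ / 8 ^ k)) ^ 3 = (c.L * ℓ) ^ 3 / 512 ^ k := by
            rw [← mul_div_assoc, div_pow, e1]
          rw [e2, div_pow]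
          field_simp
  have hzero : c.G c.x₀ (c.φ y - c.φ (t y)) (c.φ y - c.φ (t y)) ≤ 0 := by
    have h1 : Filter.Tendsto (fun k : ℕ => (374 / 512 : ℝ) ^ k * (c.C * K * (c.L * ℓ) ^ 3))
        Filter.atTop (nhds (0 * (c.C * K * (c.L * ℓ) ^ 3))) :=
      (tendsto_pow_atTop_nhds_zero_of_lt_one (by norm_num) (by norm_num)).mul_const _
    rw [zero_mul] at h1
    exact ge_of_tendsto' h1 hbound
  have hlow := c.lower c.x₀ (mem_ball_self c.rpos) (c.φ y - c.φ (t y))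
  have hn : ‖c.φ y - c.φ (t y)‖ ^ 2 ≤ 0 := by
    have hlam := c.lampos
    by_contra hcon
    push Not at hcon
    nlinarith
  have hn' : c.φ y - c.φ (t y) = 0 := by
    have : ‖c.φ y - c.φ (t y)‖ = 0 := by nlinarith [norm_nonneg (c.φ y - c.φ (t y))]
    exact norm_eq_zero.mp this
  have hty : dist p (t y) = dist p y := by
    calc dist p (t y) = dist (t p) (t y) := by rw [htp]
      _ = dist p y := ht _ _
  obtain ⟨_, a2, _⟩ := c.coord hy1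
  obtain ⟨_, b2, _⟩ := c.coord (y := t y) (by rw [← hp, hty]; exact hy1)
  calc t y = c.ψ (c.φ (t y)) := b2.symm
    _ = c.ψ (c.φ y) := by rw [sub_eq_zero.mp hn']
    _ = y := a2

end Loc

end Pool.Agent.Helper381
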