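import Pool.Agent.HZ69.Near
import Pool.Agent.Helper381.Riem3

/-! Isometries of a compact Riemannian manifold with derivative `-1` at a fixed point are
symmetries in the metric sense. -/

set_option autoImplicit false

namespace Pool.Agent.HZ69

universe u v

open Pool.Agent.Helper381
open Bundle Bornology Set MeasureTheory Manifold Filter Metric
open scoped ENNReal ContDiff Topology

/-- a distance preserving map of a compact metric space is surjective -/
theorem surj_of_isometry {M : Type u} [MetricSpace M] [CompactSpace M] {f : M → M}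
    (hf : Isometry f) : Function.Surjective f := by
  intro y
  by_contra hcon
  push Not at hcon
  have hcl : IsClosed (range f) := (isCompact_range hf.continuous).isClosed
  have hy : y ∉ range f := fun ⟨x, hx⟩ => hcon x hx
  obtain ⟨ε, hε, hball⟩ := Metric.isOpen_iff.mp hcl.isOpen_compl y hy
  have hsep : ∀ z, ε ≤ dist y (f z) := by
    intro z
    by_contra h
    push Not at h
    exact hball (show f z ∈ ball y ε by rw [mem_ball, dist_comm]; exact h) ⟨z, rfl⟩
  let a : ℕ → M := fun n => f^[n] y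
  have hiter : ∀ n x z, dist (f^[n] x) (f^[n] z) = dist x z := by
    intro n
    induction n with
    | zero => intro x z; rfl
    | succ n ih =>
      intro x z
      rw [Function.iterate_succ_apply, Function.iterate_succ_apply, ih, hf.dist_eq]
  have hdist : ∀ m n, m < n → ε ≤ dist (a m) (a n) := by
    intro m n hmn
    obtain ⟨k, rfl⟩ := Nat.exists_eq_add_of_lt hmn
    have h1 : a (m + k + 1) = f^[m] (f (f^[k] y)) := by
      simp only [a]
      rw [add_assoc, Function.iterate_add_apply, Function.iterate_succ_apply']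
    rw [h1]
    change ε ≤ dist (f^[m] y) (f^[m] (f (f^[k] y)))
    rw [hiter]
    exact hsep _
  obtain ⟨l, -, φ, hφ, hlim⟩ := (isCompact_univ (X := M)).tendsto_subseq (fun n => mem_univ (a n))
  have hcau := hlim.cauchySeq
  rw [Metric.cauchySeq_iff] at hcau
  obtain ⟨N, hN⟩ := hcau ε hε
  have h1 := hN N le_rfl (N + 1) (by omega)
  have h2 := hdist (φ N) (φ (N + 1)) (hφ (by omega))
  exact absurd h1 (not_lt.mpr h2)

section

variable {E : Type v} [NormedAddCommGroup E] [NormedSpace ℝ E] [FiniteDimensional ℝ E]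
  {M : Type u} [MetricSpace M] [ChartedSpace E M] [IsManifold 𝓘(ℝ, E) ∞ M]
  [RiemannianBundle (fun (x : M) ↦ TangentSpace 𝓘(ℝ, E) x)]
  [IsContMDiffRiemannianBundle 𝓘(ℝ, E) ∞ E (fun (x : M) ↦ TangentSpace 𝓘(ℝ, E) x)]
  [IsRiemannianManifold 𝓘(ℝ, E) M]

theorem exists_loc' (p : M) : ∃ c : Loc M E, c.φ = extChartAt 𝓘(ℝ, E) p ∧
    c.ψ = psi (E := E) p ∧ c.x₀ = extChartAt 𝓘(ℝ, E) p p := by
  obtain ⟨g, hgx, hgt, hG⟩ := exists_metCoef (E := E) p
  refine ⟨{ toMetCoef := g, φ := extChartAt 𝓘(ℝ, E) p, ψ := psi p,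
            φψ := fun v hv => (extChartAt 𝓘(ℝ, E) p).right_inv (hgt hv),
            isOpen_image := fun V hV hVo => isOpen_psi_image p (hV.trans hgt) hVo,
            contφ := ?_, contψ := (continuousOn_extChartAt_symm p).mono hgt,
            up := ?_, lo := ?_ }, rfl, rfl, hgx⟩
  · apply (continuousOn_extChartAt p).mono
    rintro _ ⟨v, hv, rfl⟩
    exact (extChartAt 𝓘(ℝ, E) p).map_target (hgt hv)
  · intro x hx y hy K hK h
    apply up_chart p _ K hK
    · intro t ht
      have := h t ht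
      rwa [hG] at this
    · intro t ht
      apply hgt
      have := (convex_ball g.x₀ g.r) hx hy (by linarith [ht.2] : (0 : ℝ) ≤ 1 - t) ht.1 (by ring)
      have e : (1 - t) • x + t • y = x + t • (y - x) := by module
      rwa [e] at this
  · intro x hx s K hs hK h y hy
    obtain ⟨w, hw, hwy, hle⟩ := lo_chart p hgt hx hs hK (by
      intro w hw
      have := h w (by rw [hG]; exact hw)
      refine ⟨this.1, fun v => ?_⟩
      have h2 := this.2 v
      rwa [hG, hG] at h2) y hy
    exact ⟨w, hw, hwy, by rw [hG]; exact hle⟩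

/-- the local form of a map at a fixed point -/
theorem local_form (p : M) (s : M → M) (hs : Isometry s) (hsp : s p = p)
    (hd : mfderiv 𝓘(ℝ, E) 𝓘(ℝ, E) s p = -ContinuousLinearMap.id ℝ E) :
    HasFDerivAt (fun x : E => extChartAt 𝓘(ℝ, E) p (s ((extChartAt 𝓘(ℝ, E) p).symm x)))
      (-ContinuousLinearMap.id ℝ E) (extChartAt 𝓘(ℝ, E) p p) := by
  have hmd : MDifferentiableAt 𝓘(ℝ, E) 𝓘(ℝ, E) s p := by
    by_contra hcon
    rcases subsingleton_or_nontrivial E with hE | hE
    · apply hcon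
      rw [mdifferentiableAt_iff]
      refine ⟨hs.continuous.continuousAt, ?_⟩
      exact (differentiable_of_subsingleton _).differentiableWithinAt
    · rw [mfderiv_zero_of_not_mdifferentiableAt hcon] at hd
      obtain ⟨v, hv⟩ := exists_ne (0 : E)
      have h1 := congrArg (fun f : E →L[ℝ] E => f v) hd
      apply hv
      have h2 : (0 : E) = -v := h1
      rw [← neg_eq_zero, ← h2]
  have h := hmd.hasMFDerivAt
  rw [hd] at h
  have h2 := h.2
  rw [ModelWithCorners.range_eq_univ, hasFDerivWithinAt_univ] at h2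
  have h3 : writtenInExtChartAt 𝓘(ℝ, E) 𝓘(ℝ, E) p s =
      fun x : E => extChartAt 𝓘(ℝ, E) p (s ((extChartAt 𝓘(ℝ, E) p).symm x)) := by
    funext x
    simp only [writtenInExtChartAt, Function.comp_apply, hsp]
  rw [h3] at h2
  exact h2

theorem little_of_hasFDerivAt {F : E → E} {A : E →L[ℝ] E} {x₀ : E} (h : HasFDerivAt F A x₀)
    {ε : ℝ} (hε : 0 < ε) : ∃ δ > 0, ∀ v : E, ‖v‖ < δ → ‖F (x₀ + v) - F x₀ - A v‖ ≤ ε * ‖v‖ := by
  have h1 := hasFDerivAt_iff_isLittleO_nhds_zero.mp h
  have h2 := Asymptotics.isLittleO_iff.mp h1 hε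
  obtain ⟨δ, hδ, h3⟩ := Metric.eventually_nhds_iff.mp h2
  refine ⟨δ, hδ, fun v hv => h3 ?_⟩
  rwa [dist_zero_right]

/-- an isometry with derivative `-1` at a fixed point is a symmetry in the metric sense -/
theorem isSymmetryAt_of [CompactSpace M] [PreconnectedSpace M] (p : M) (s : M → M)
    (hs : Isometry s) (hsp : s p = p)
    (hd : mfderiv 𝓘(ℝ, E) 𝓘(ℝ, E) s p = -ContinuousLinearMap.id ℝ E) :
    ∃ g : M ≃ᵢ M, (∀ y, g y = s y) ∧ IsSymmetryAt p g := by
  obtain ⟨R, G⟩ := riemannian_geo (E := E) (M := M)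
  obtain ⟨c, hcφ, hcψ, hcx⟩ := exists_loc' (E := E) p
  have hlf := local_form (E := E) p s hs hsp hd
  set x₀ : E := extChartAt 𝓘(ℝ, E) p p with hx₀
  set f : E → E := fun x : E => extChartAt 𝓘(ℝ, E) p (s ((extChartAt 𝓘(ℝ, E) p).symm x)) with hf
  have hinv : (extChartAt 𝓘(ℝ, E) p).symm x₀ = p := extChartAt_to_inv p
  have hfx : f x₀ = x₀ := by
    change extChartAt 𝓘(ℝ, E) p (s ((extChartAt 𝓘(ℝ, E) p).symm x₀)) = x₀
    rw [hinv, hsp]
  have hψp : c.ψ c.x₀ = p := by rw [hcψ, hcx]; exact hinv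
  -- the square
  have hFeq : (fun x : E => extChartAt 𝓘(ℝ, E) p (s (s ((extChartAt 𝓘(ℝ, E) p).symm x)))) =ᶠ[𝓝 x₀]
      f ∘ f := by
    have h1 : ContinuousAt (fun x : E => s ((extChartAt 𝓘(ℝ, E) p).symm x)) x₀ := by
      apply ContinuousAt.comp
      · exact hs.continuous.continuousAt
      · exact continuousAt_extChartAt_symm p
    have h2 : (extChartAt 𝓘(ℝ, E) p).source ∈ 𝓝 (s ((extChartAt 𝓘(ℝ, E) p).symm x₀)) := by
      rw [hinv, hsp]
      exact extChartAt_source_mem_nhds p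
    filter_upwards [h1 h2] with x hx
    have hx' : s ((extChartAt 𝓘(ℝ, E) p).symm x) ∈ (extChartAt 𝓘(ℝ, E) p).source := hx
    simp only [Function.comp_apply, hf]
    rw [(extChartAt 𝓘(ℝ, E) p).left_inv hx']
  have hff : HasFDerivAt (f ∘ f) (ContinuousLinearMap.id ℝ E) x₀ := by
    have h1 : HasFDerivAt f (-ContinuousLinearMap.id ℝ E) (f x₀) := by rw [hfx]; exact hlf
    have h2 := h1.comp x₀ hlf
    have h3 : (-ContinuousLinearMap.id ℝ E).comp (-ContinuousLinearMap.id ℝ E) =
        ContinuousLinearMap.id ℝ E := by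
      ext v; simp
    rwa [h3] at h2
  have hF := hff.congr_of_eventuallyEq hFeq
  have hFx : extChartAt 𝓘(ℝ, E) p (s (s ((extChartAt 𝓘(ℝ, E) p).symm x₀))) = x₀ := by
    rw [hinv, hsp, hsp]
  obtain ⟨δ, hδ, hnear⟩ := c.near_id G.midpt (fun y => s (s y))
    (fun x y => by rw [hs.dist_eq, hs.dist_eq]) (by simp only [hψp, hsp]) (by
      intro ε hε
      obtain ⟨δ, hδ, h⟩ := little_of_hasFDerivAt hF hε
      refine ⟨δ, hδ, fun v hv => ?_⟩
      have h1 := h v hv
      rw [hFx] at h1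
      rw [hcφ, hcψ, hcx]
      exact h1)
  rw [hψp] at hnear
  -- the isometry equivalence
  have hsurj := surj_of_isometry hs
  let g : M ≃ᵢ M := IsometryEquiv.mk (Equiv.ofBijective s ⟨hs.injective, hsurj⟩) hs
  have hg : ∀ y, g y = s y := fun y => rfl
  refine ⟨g, hg, ?_, hsp, ?_⟩
  · intro y
    have := G.eq_id (g.trans g) (x := p) ⟨δ, hδ, fun y hy => hnear y hy⟩ y
    exact this
  · -- isolated fixed point
    obtain ⟨δ₁, hδ₁, h1⟩ := little_of_hasFDerivAt hlf one_pos
    have h2 : ContinuousAt (extChartAt 𝓘(ℝ, E) p) p := continuousAt_extChartAt p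
    obtain ⟨δ₂, hδ₂, h3⟩ := Metric.continuousAt_iff.mp h2 δ₁ hδ₁
    obtain ⟨δ₃, hδ₃, h4⟩ := Metric.mem_nhds_iff.mp (extChartAt_source_mem_nhds (I := 𝓘(ℝ, E)) p)
    refine ⟨min δ₂ δ₃, by positivity, ?_⟩
    intro y hy hfix
    have hy2 := h3 (hy.trans_le (min_le_left _ _))
    have hy3 : y ∈ (extChartAt 𝓘(ℝ, E) p).source := h4 (hy.trans_le (min_le_right _ _))
    set v : E := extChartAt 𝓘(ℝ, E) p y - x₀ with hv
    have h5 := h1 v (by rw [hv, ← dist_eq_norm]; exact hy2)
    have h6 : x₀ + v = extChartAt 𝓘(ℝ, E) p y := by rw [hv]; abel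
    have h7 : f (x₀ + v) = x₀ + v := by
      rw [h6]
      simp only [hf]
      rw [(extChartAt 𝓘(ℝ, E) p).left_inv hy3]
      have : s y = y := hfix
      rw [this]
    rw [h7, hfx] at h5
    have h8 : x₀ + v - x₀ - (-ContinuousLinearMap.id ℝ E) v = (2 : ℝ) • v := by
      simp only [_root_.neg_apply, ContinuousLinearMap.id_apply]
      module
    rw [h8, norm_smul, Real.norm_of_nonneg (by norm_num)] at h5
    have h9 : ‖v‖ = 0 := by
      have := norm_nonneg v
      linarith
    have h10 : extChartAt 𝓘(ℝ, E) p y = extChartAt 𝓘(ℝ, E) p p := by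
      rw [← h6, norm_eq_zero.mp h9, add_zero]
    exact (extChartAt 𝓘(ℝ, E) p).injOn hy3 (mem_extChartAt_source p) h10

end

end Pool.Agent.HZ69
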