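import Pool.Agent.HZ69.Alg

/-! Mod-2 Betti numbers and real Betti numbers when there is no element of order two. -/

set_option autoImplicit false

namespace Pool.Agent.HZ69

open Module Finsupp
open Pool.Agent.Helper381 Pool.Agent.TH592.Nag

noncomputable section

variable {X : Type} [TopologicalSpace X]

/-- change of coefficients -/
abbrev mapC {R S : Type} [CommRing R] [CommRing S] (φ : R →+ S) (T : Type) :
    (T →₀ R) →+ (T →₀ S) :=
  Finsupp.mapRange.addMonoidHom φ

theorem mapC_bd {R S : Type} [CommRing R] [CommRing S] (φ : R →+ S) (n : ℕ)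
    (z : Sing X (n + 1) →₀ R) :
    mapC φ _ (Pool.Agent.TH592.Nag.bd R X n z) =
      Pool.Agent.TH592.Nag.bd S X n (mapC φ _ z) := by
  have : (mapC φ (Sing X n)).comp (Pool.Agent.TH592.Nag.bd R X n).toAddMonoidHom =
      ((Pool.Agent.TH592.Nag.bd S X n).toAddMonoidHom).comp (mapC φ (Sing X (n + 1))) := by
    apply Finsupp.addHom_ext
    intro σ r
    change mapC φ _ (Pool.Agent.TH592.Nag.bd R X n (single σ r)) =
      Pool.Agent.TH592.Nag.bd S X n (mapC φ _ (single σ r))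
    rw [bd_single', map_sum, Finsupp.mapRange.addMonoidHom_apply, Finsupp.mapRange_single,
      bd_single']
    refine Finset.sum_congr rfl fun i _ => ?_
    rw [map_zsmul, Finsupp.mapRange.addMonoidHom_apply, Finsupp.mapRange_single]
  exact DFunLike.congr_fun this z

theorem mem_cyc_map {R S : Type} [CommRing R] [CommRing S] (φ : R →+ S) (n : ℕ)
    (z : Sing X n →₀ R) (hz : z ∈ cyc R X n) : mapC φ _ z ∈ cyc S X n := by
  cases n with
  | zero => trivial
  | succ n =>
    change Pool.Agent.TH592.Nag.bd S X n (mapC φ _ z) = 0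
    rw [← mapC_bd]
    have : Pool.Agent.TH592.Nag.bd R X n z = 0 := hz
    rw [this, map_zero]

theorem mem_bou_map {R S : Type} [CommRing R] [CommRing S] (φ : R →+ S) (n : ℕ)
    (z : Sing X n →₀ R) (hz : z ∈ bou R X n) : mapC φ _ z ∈ bou S X n := by
  obtain ⟨w, rfl⟩ := hz
  exact ⟨mapC φ _ w, (mapC_bd φ n w).symm⟩

/-- no element of order two in homology: the chain form -/
theorem bou_of_two (X : Type) [TopologicalSpace X]
    (h2 : ∀ n, ∀ g : Hm ℤ X n, (2 : ℤ) • g = 0 → g = 0) (n : ℕ) (w : Sing X n →₀ ℤ)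
    (hw : w ∈ cyc ℤ X n) (h : (2 : ℤ) • w ∈ bou ℤ X n) : w ∈ bou ℤ X n := by
  have h3 := h2 n (Submodule.Quotient.mk ⟨w, hw⟩) (by
    rw [← Submodule.Quotient.mk_smul, Submodule.Quotient.mk_eq_zero]
    exact h)
  rw [Submodule.Quotient.mk_eq_zero] at h3
  exact h3

theorem exists_lift2 (T : Type) (z : T →₀ ZMod 2) :
    ∃ y : T →₀ ℤ, mapC (Int.castAddHom (ZMod 2)) T y = z := by
  have hs : Function.Surjective (Int.castAddHom (ZMod 2)) := ZMod.intCast_surjective
  exact Finsupp.mapRange_surjective _ (map_zero _) hs z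

theorem exists_half (T : Type) (y : T →₀ ℤ)
    (h : mapC (Int.castAddHom (ZMod 2)) T y = 0) : ∃ w : T →₀ ℤ, y = (2 : ℤ) • w := by
  refine ⟨y.mapRange (fun a => a / 2) (by simp), ?_⟩
  ext t
  have h1 := DFunLike.congr_fun h t
  simp only [Finsupp.mapRange.addMonoidHom_apply, Finsupp.mapRange_apply, Int.coe_castAddHom,
    Finsupp.coe_zero, Pi.zero_apply] at h1
  have h2 : (2 : ℤ) ∣ y t := by
    have := (ZMod.intCast_zmod_eq_zero_iff_dvd (y t) 2).mp h1
    simpa using this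
  simp only [Finsupp.coe_smul, Pi.smul_apply, Finsupp.mapRange_apply, smul_eq_mul]
  omega

theorem lift_cycle (X : Type) [TopologicalSpace X]
    (h2 : ∀ n, ∀ g : Hm ℤ X n, (2 : ℤ) • g = 0 → g = 0) (n : ℕ) (z : Sing X n →₀ ZMod 2)
    (hz : z ∈ cyc (ZMod 2) X n) :
    ∃ y ∈ cyc ℤ X n, mapC (Int.castAddHom (ZMod 2)) _ y = z := by
  obtain ⟨y0, hy0⟩ := exists_lift2 _ z
  cases n with
  | zero => exact ⟨y0, trivial, hy0⟩
  | succ n =>
    have hz' : Pool.Agent.TH592.Nag.bd (ZMod 2) X n z = 0 := hz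
    rw [← hy0, ← mapC_bd] at hz'
    obtain ⟨w, hw⟩ := exists_half _ _ hz'
    have hwc : w ∈ cyc ℤ X n := by
      cases n with
      | zero => trivial
      | succ n =>
        change Pool.Agent.TH592.Nag.bd ℤ X n w = 0
        have h3 : (2 : ℤ) • Pool.Agent.TH592.Nag.bd ℤ X n w = 0 := by
          rw [← map_smul, ← hw, bd_bd']
        exact (smul_eq_zero.mp h3).resolve_left (by norm_num)
    have hwb : w ∈ bou ℤ X n := bou_of_two X h2 n w hwc (by rw [← hw]; exact ⟨y0, rfl⟩)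
    obtain ⟨v, hv⟩ := hwb
    refine ⟨y0 - (2 : ℤ) • v, ?_, ?_⟩
    · change Pool.Agent.TH592.Nag.bd ℤ X n (y0 - (2 : ℤ) • v) = 0
      rw [map_sub, map_smul, hv, hw, sub_self]
    · rw [map_sub, map_zsmul, hy0]
      have h4 : ∀ u : Sing X (n + 1) →₀ ZMod 2, (2 : ℤ) • u = 0 := by
        intro u
        ext t
        simp only [Finsupp.coe_smul, Pi.smul_apply, Finsupp.coe_zero, Pi.zero_apply]
        rw [zsmul_eq_mul]
        have : ((2 : ℤ) : ZMod 2) = 0 := by decide
        rw [this, zero_mul]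
      rw [h4, sub_zero]

/-- integral relations between lifts of independent classes are trivial -/
theorem int_indep (X : Type) [TopologicalSpace X]
    (h2 : ∀ n, ∀ g : Hm ℤ X n, (2 : ℤ) • g = 0 → g = 0) (n : ℕ) {ι : Type} [Fintype ι]
    (y : ι → (Sing X n →₀ ℤ)) (hy : ∀ i, y i ∈ cyc ℤ X n)
    (hind : ∀ c : ι → ZMod 2,
      ∑ i, c i • mapC (Int.castAddHom (ZMod 2)) _ (y i) ∈ bou (ZMod 2) X n → ∀ i, c i = 0)
    (m : ι → ℤ) (hm : ∑ i, m i • y i ∈ bou ℤ X n) : ∀ i, m i = 0 := by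
  have key : ∀ k : ℕ, ∀ m : ι → ℤ, ∑ i, m i • y i ∈ bou ℤ X n → ∀ i, (2 : ℤ) ^ k ∣ m i := by
    intro k
    induction k with
    | zero => intro m _ i; simp
    | succ k ih =>
      intro m hm
      have hev : ∀ i, (2 : ℤ) ∣ m i := by
        intro i
        have h3 := mem_bou_map (Int.castAddHom (ZMod 2)) n _ hm
        have h4 := hind (fun i => (m i : ZMod 2)) (by
          convert h3 using 1
          rw [map_sum]
          refine Finset.sum_congr rfl fun j _ => ?_
          rw [map_zsmul, Int.cast_smul_eq_zsmul]) i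
        have := (ZMod.intCast_zmod_eq_zero_iff_dvd (m i) 2).mp h4
        simpa using this
      choose m' hm' using hev
      have h5 : (2 : ℤ) • ∑ i, m' i • y i = ∑ i, m i • y i := by
        rw [Finset.smul_sum]
        refine Finset.sum_congr rfl fun j _ => ?_
        rw [smul_smul, ← hm' j]
      have h6 : ∑ i, m' i • y i ∈ bou ℤ X n := by
        apply bou_of_two X h2 n
        · exact Submodule.sum_mem _ fun i _ => Submodule.smul_mem _ _ (hy i)
        · rw [h5]; exact hm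
      intro i
      rw [hm' i, pow_succ']
      exact mul_dvd_mul_left 2 (ih m' h6 i)
  intro i
  by_contra hne
  have h7 := key (m i).natAbs m hm i
  have h8 := Int.natAbs_dvd_natAbs.mpr h7
  rw [Int.natAbs_pow] at h8
  have h9 := Nat.le_of_dvd (Int.natAbs_pos.mpr hne) h8
  have h10 : (m i).natAbs < 2 ^ (m i).natAbs := Nat.lt_two_pow_self
  simp at h9
  omega

theorem rat_indep (X : Type) [TopologicalSpace X]
    (h2 : ∀ n, ∀ g : Hm ℤ X n, (2 : ℤ) • g = 0 → g = 0) (n : ℕ) {ι : Type} [Fintype ι]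
    (y : ι → (Sing X n →₀ ℤ)) (hy : ∀ i, y i ∈ cyc ℤ X n)
    (hind : ∀ c : ι → ZMod 2,
      ∑ i, c i • mapC (Int.castAddHom (ZMod 2)) _ (y i) ∈ bou (ZMod 2) X n → ∀ i, c i = 0)
    (q : ι → ℚ) (hq : ∑ i, q i • mapC (Int.castAddHom ℚ) _ (y i) ∈ bou ℚ X n) :
    ∀ i, q i = 0 := by
  classical
  obtain ⟨W, hW⟩ := hq
  -- common denominator
  let s : Finset ℚ := (Finset.univ.image q) ∪ W.support.image (fun t => W t)
  obtain ⟨b, hb⟩ := IsLocalization.exist_integer_multiples_of_finset (nonZeroDivisors ℤ) s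
  have hb0 : (b : ℤ) ≠ 0 := nonZeroDivisors.ne_zero b.2
  have hbq : ∀ i, ∃ m : ℤ, (m : ℚ) = (b : ℤ) • q i := by
    intro i
    obtain ⟨m, hm⟩ := hb (q i) (Finset.mem_union_left _ (Finset.mem_image_of_mem _
      (Finset.mem_univ i)))
    exact ⟨m, hm⟩
  have hbW : ∀ t, ∃ m : ℤ, (m : ℚ) = (b : ℤ) • W t := by
    intro t
    by_cases ht : t ∈ W.support
    · obtain ⟨m, hm⟩ := hb (W t) (Finset.mem_union_right _ (Finset.mem_image_of_mem _ ht))
      exact ⟨m, hm⟩
    · refine ⟨0, ?_⟩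
      rw [Finsupp.notMem_support_iff.mp ht]
      simp
  choose m hm using hbq
  choose mW hmW using hbW
  let W' : Sing X (n + 1) →₀ ℤ := Finsupp.onFinset W.support mW (by
    intro t ht
    by_contra h0
    apply ht
    have h3 := hmW t
    rw [Finsupp.notMem_support_iff.mp h0] at h3
    simpa using h3)
  have hW' : mapC (Int.castAddHom ℚ) _ W' = (b : ℤ) • W := by
    ext t
    simp only [Finsupp.mapRange.addMonoidHom_apply, Finsupp.mapRange_apply, Int.coe_castAddHom]
    exact hmW t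
  have hinj : Function.Injective (mapC (Int.castAddHom ℚ) (Sing X n)) :=
    Finsupp.mapRange_injective _ (map_zero _) Int.cast_injective
  have h3 : Pool.Agent.TH592.Nag.bd ℤ X n W' = ∑ i, m i • y i := by
    apply hinj
    rw [mapC_bd, hW', map_zsmul, hW, map_sum, Finset.smul_sum]
    refine Finset.sum_congr rfl fun i _ => ?_
    rw [map_zsmul, ← smul_assoc, ← hm i, Int.cast_smul_eq_zsmul]
  have h4 := int_indep X h2 n y hy hind m ⟨W', h3⟩
  intro i
  have h5 := hm i
  rw [h4 i] at h5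
  have h6 : (b : ℤ) • q i = 0 := by rw [← h5]; simp
  exact (smul_eq_zero.mp h6).resolve_left hb0

theorem real_indep (X : Type) [TopologicalSpace X]
    (h2 : ∀ n, ∀ g : Hm ℤ X n, (2 : ℤ) • g = 0 → g = 0) (n : ℕ) {ι : Type} [Fintype ι]
    (y : ι → (Sing X n →₀ ℤ)) (hy : ∀ i, y i ∈ cyc ℤ X n)
    (hind : ∀ c : ι → ZMod 2,
      ∑ i, c i • mapC (Int.castAddHom (ZMod 2)) _ (y i) ∈ bou (ZMod 2) X n → ∀ i, c i = 0)
    (r : ι → ℝ) (hr : ∑ i, r i • mapC (Int.castAddHom ℝ) _ (y i) ∈ bou ℝ X n) :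
    ∀ i, r i = 0 := by
  intro i
  rw [← Module.forall_dual_apply_eq_zero_iff ℚ (r i)]
  intro φ
  have h3 := mem_bou_map φ.toAddMonoidHom n _ hr
  rw [map_sum] at h3
  refine rat_indep X h2 n y hy hind (fun i => φ (r i)) ?_ i
  convert h3 using 1
  refine Finset.sum_congr rfl fun j _ => ?_
  ext t
  simp only [Finsupp.coe_smul, Pi.smul_apply, Finsupp.mapRange.addMonoidHom_apply,
    Finsupp.mapRange_apply, Int.coe_castAddHom, smul_eq_mul, LinearMap.toAddMonoidHom_coe]
  rw [mul_comm (r j), ← zsmul_eq_mul, map_zsmul, zsmul_eq_mul, mul_comm]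

theorem sum_mk_eq_zero_iff {R C : Type} [CommRing R] [AddCommGroup C] [Module R C]
    (Z B : Submodule R C) {ι : Type} [Fintype ι] (r : ι → R) (z : ι → Z) :
    ∑ i, r i • (Submodule.Quotient.mk (z i) : HQ Z B) = 0 ↔ ∑ i, r i • (z i).1 ∈ B := by
  have h3 : ∑ i, r i • (Submodule.Quotient.mk (z i) : HQ Z B) =
      (B.submoduleOf Z).mkQ (∑ i, r i • z i) := by
    rw [map_sum]
    refine Finset.sum_congr rfl fun i _ => ?_
    rw [map_smul]; rfl
  rw [h3, Submodule.mkQ_apply, Submodule.Quotient.mk_eq_zero, Submodule.submoduleOf, Submodule.mem_comap, Submodule.subtype_apply]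
  have h4 : ((∑ i, r i • z i : Z) : C) = ∑ i, r i • (z i).1 := by
    change Z.subtype (∑ i, r i • z i) = _
    rw [map_sum]
    refine Finset.sum_congr rfl fun i _ => ?_
    rw [map_smul]; rfl
  rw [h4]

/-- without elements of order two, mod 2 Betti numbers are at most the real ones -/
theorem finrank_two_le (X : Type) [TopologicalSpace X]
    (h2 : ∀ n, ∀ g : Hm ℤ X n, (2 : ℤ) • g = 0 → g = 0) (n : ℕ)
    [Module.Finite ℝ (Hm ℝ X n)] [Module.Finite (ZMod 2) (Hm (ZMod 2) X n)] :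
    finrank (ZMod 2) (Hm (ZMod 2) X n) ≤ finrank ℝ (Hm ℝ X n) := by
  classical
  let bs := Module.finBasis (ZMod 2) (Hm (ZMod 2) X n)
  have hz : ∀ i, ∃ z : cyc (ZMod 2) X n, Submodule.Quotient.mk z = bs i := fun i =>
    Submodule.Quotient.mk_surjective _ (bs i)
  choose z hz using hz
  have hy : ∀ i, ∃ y ∈ cyc ℤ X n, mapC (Int.castAddHom (ZMod 2)) _ y = (z i).1 := fun i =>
    lift_cycle X h2 n (z i).1 (z i).2
  choose y hy1 hy2 using hy
  have hind : ∀ c : Fin (finrank (ZMod 2) (Hm (ZMod 2) X n)) → ZMod 2,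
      ∑ i, c i • mapC (Int.castAddHom (ZMod 2)) _ (y i) ∈ bou (ZMod 2) X n → ∀ i, c i = 0 := by
    intro c hc
    have hb := bs.linearIndependent
    rw [Fintype.linearIndependent_iff] at hb
    apply hb c
    simp_rw [← hz]
    rw [sum_mk_eq_zero_iff]
    simp_rw [← hy2]
    exact hc
  let yy : Fin (finrank (ZMod 2) (Hm (ZMod 2) X n)) → cyc ℝ X n := fun i =>
    ⟨mapC (Int.castAddHom ℝ) _ (y i), mem_cyc_map _ n _ (hy1 i)⟩
  have hv : LinearIndependent ℝ (fun i => (Submodule.Quotient.mk (yy i) : Hm ℝ X n)) := by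
    rw [Fintype.linearIndependent_iff]
    intro r hr
    apply real_indep X h2 n y hy1 hind r
    rw [sum_mk_eq_zero_iff] at hr
    exact hr
  have := hv.fintype_card_le_finrank
  rwa [Fintype.card_fin] at this

end

end Pool.Agent.HZ69
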