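import Pool.Agent.Helper381.Small

/-! Vanishing of singular cohomology in high degrees for spaces with suitable covers of small
order. -/

set_option autoImplicit false

namespace Pool.Agent.Helper381

universe u v w

open Finsupp

section SmallCob

variable {k : Type v} [CommRing k] {X : Type u} [TopologicalSpace X] (𝒞 : Set (Set X))

/-- a cocycle which is a coboundary on small simplices is a coboundary -/
theorem cob_of_small (hopen : ∀ C ∈ 𝒞, IsOpen C) (hcov : ∀ x : X, ∃ C ∈ 𝒞, x ∈ C) (n : ℕ)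
    (f : Sing X (n + 1) → k) (hf : altd k (sface (X := X)) (n + 1) f = 0)
    (h : Small 𝒞 n → k)
    (hfg' : ∀ σ : Small 𝒞 (n + 1), f σ.1 = altd k (smface (𝒞 := 𝒞)) n h σ) :
    ∃ g : Sing X n → k, altd k (sface (X := X)) n g = f := by
  classical
  refine ⟨fun σ => evc (extz 𝒞 h) (rho 𝒞 n (single σ 1)) + evc f (DD 𝒞 n (single σ 1)), ?_⟩
  funext σ
  rw [altd_eq_ev]
  have h1 : Finsupp.linearCombination ℤ
      (fun σ => evc (extz 𝒞 h) (rho 𝒞 n (single σ 1)) + evc f (DD 𝒞 n (single σ 1))) =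
      (evc (extz 𝒞 h)).comp (rho 𝒞 n) + (evc f).comp (DD 𝒞 n) := by
    apply Finsupp.lhom_ext'
    intro σ
    apply LinearMap.ext_ring
    simp only [LinearMap.comp_apply, lsingle_apply, linearCombination_single, one_smul,
      LinearMap.add_apply]
  rw [h1, LinearMap.add_apply, LinearMap.comp_apply, LinearMap.comp_apply]
  -- compute f σ
  have h2 : f σ = evc f (rho 𝒞 (n + 1) (single σ 1)) +
      evc f (sbd X (n + 1) (DD 𝒞 (n + 1) (single σ 1))) +
      evc f (DD 𝒞 n (sbd X n (single σ 1))) := by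
    rw [rho_succ, map_sub, map_sub, evc_single]
    ring
  rw [h2]
  have h3 : evc f (sbd X (n + 1) (DD 𝒞 (n + 1) (single σ 1))) = 0 := by
    rw [← ev_altd, hf]
    simp
  have h4 : evc f (rho 𝒞 (n + 1) (single σ 1)) =
      evc (extz 𝒞 h) (rho 𝒞 n (sbd X n (single σ 1))) := by
    rw [← sbd_rho, ← ev_altd]
    apply evc_congr (smallSet 𝒞 (n + 1)) _ _ _ _ (rho_small 𝒞 hopen hcov (n + 1) _)
    intro τ hτ
    rw [extz_altd 𝒞 h τ hτ]
    exact hfg' ⟨τ, hτ⟩
  rw [h3, h4, add_zero]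

end SmallCob

section Grid

variable {k : Type v} [CommRing k] {X : Type u} [TopologicalSpace X] {P : Type w} [PartialOrder P]
  (Q : Set P) (U : P → Set X)

/-- pairs (chain, simplex inside the smallest member) -/
abbrev ZU (p q : ℕ) : Type (max u w) :=
  {x : Ch Q p × Sing X q // Set.range x.2 ⊆ U (x.1.1 0)}

variable {U} in
noncomputable def fu1 (hU : Monotone U) (q p : ℕ) (i : Fin (p + 2)) (z : ZU Q U (p + 1) q) :
    ZU Q U p q :=
  ⟨(cface p i z.1.1, z.1.2), z.2.trans (hU (z.1.1.2.1.monotone (Fin.zero_le _)))⟩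

noncomputable def fu2 (p q : ℕ) (j : Fin (q + 2)) (z : ZU Q U p (q + 1)) :
    ZU Q U p q :=
  ⟨(z.1.1, sface q j z.1.2), (range_sface q j z.1.2).trans z.2⟩

variable {U} in
/-- horizontal differential -/
noncomputable abbrev du1 (k : Type v) [CommRing k] (hU : Monotone U) (q p : ℕ) :
    (ZU Q U p q → k) →ₗ[k] (ZU Q U (p + 1) q → k) :=
  altd k (S := fun p => ZU Q U p q) (fun p => fu1 Q hU q p) p

/-- vertical differential -/
noncomputable abbrev du2 (k : Type v) [CommRing k] (p q : ℕ) :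
    (ZU Q U p q → k) →ₗ[k] (ZU Q U p (q + 1) → k) :=
  altd k (S := fun q => ZU Q U p q) (fun q => fu2 Q U p q) q

variable {U}

theorem du11 (hU : Monotone U) (q p : ℕ) (f : ZU Q U p q → k) :
    du1 Q k hU q (p + 1) (du1 Q k hU q p f) = 0 := by
  apply altd_altd
  intro n i j z hij
  apply Subtype.ext
  apply Prod.ext
  · exact cface_cface _ _ _ _ hij
  · rfl

theorem du12 (hU : Monotone U) (q p : ℕ) (f : ZU Q U p q → k) :
    du1 Q k hU (q + 1) p (du2 Q U k p q f) = du2 Q U k (p + 1) q (du1 Q k hU q p f) := by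
  funext z
  simp only [altd_apply, Finset.mul_sum]
  rw [Finset.sum_comm]
  refine Finset.sum_congr rfl fun j _ => Finset.sum_congr rfl fun i _ => ?_
  have : fu2 Q U p q j (fu1 Q hU (q + 1) p i z) = fu1 Q hU q p i (fu2 Q U (p + 1) q j z) := rfl
  rw [this]
  ring

/-- columns are exact when there is cone data -/
theorem col_exact (hcone : ∀ C ∈ Q, ConeData (U C)) (p q : ℕ) (f : ZU Q U p (q + 1) → k)
    (hf : du2 Q U k p (q + 1) f = 0) : ∃ g : ZU Q U p q → k, du2 Q U k p q g = f := by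
  classical
  rcases isEmpty_or_nonempty X with hX | hX
  · refine ⟨fun _ => 0, ?_⟩
    funext z
    exact (hX.false (z.1.2 (vert (q + 1) 0))).elim
  have hcone' : ∀ C : P, ∃ (pt : X) (K : ∀ q, Sing X q → Sing X (q + 1)), C ∈ Q → (pt ∈ U C ∧
    (∀ q (σ : Sing X q), Set.range σ ⊆ U C → Set.range (K q σ) ⊆ U C ∧ sface q 0 (K q σ) = σ) ∧
    (∀ q (σ : Sing X (q + 1)), Set.range σ ⊆ U C → ∀ i : Fin (q + 2),
      sface (q + 1) i.succ (K (q + 1) σ) = K q (sface q i σ)) ∧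
    (∀ σ : Sing X 0, Set.range σ ⊆ U C → sface 0 1 (K 0 σ) = ContinuousMap.const _ pt)) := by
    intro C
    by_cases h : C ∈ Q
    · obtain ⟨pt, K, hh⟩ := hcone C h
      exact ⟨pt, K, fun _ => hh⟩
    · exact ⟨Classical.arbitrary X, fun q _ => ContinuousMap.const _ (Classical.arbitrary X),
        fun h' => absurd h' h⟩
  choose pt K hcone' using hcone'
  have hK1 := fun C hC => (hcone' C hC).2.1
  have hK2 := fun C hC => (hcone' C hC).2.2.1
  refine ⟨fun z => f ⟨(z.1.1, K (z.1.1.1 0) q z.1.2), (hK1 _ (z.1.1.2.2 0) q z.1.2 z.2).1⟩, ?_⟩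
  funext z
  obtain ⟨⟨c, σ⟩, hz⟩ := z
  have hz' : Set.range σ ⊆ U (c.1 0) := hz
  have hc0 := c.2.2 0
  have h2 := congrFun hf (⟨(c, K (c.1 0) (q + 1) σ), (hK1 _ hc0 _ σ hz').1⟩ : ZU Q U p (q + 2))
  rw [altd_apply, Fin.sum_univ_succ] at h2
  simp only [Fin.val_zero, pow_zero, one_mul, Pi.zero_apply] at h2
  have e0 : fu2 Q U p (q + 1) 0 (⟨(c, K (c.1 0) (q + 1) σ), (hK1 _ hc0 _ σ hz').1⟩ :
      ZU Q U p (q + 2)) = ⟨(c, σ), hz⟩ := by
    apply Subtype.ext
    apply Prod.ext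
    · rfl
    · exact (hK1 _ hc0 _ σ hz').2
  rw [e0] at h2
  rw [altd_apply, eq_neg_of_add_eq_zero_left h2, ← Finset.sum_neg_distrib]
  refine Finset.sum_congr rfl fun i _ => ?_
  have e1 : fu2 Q U p (q + 1) i.succ
      (⟨(c, K (c.1 0) (q + 1) σ), (hK1 _ hc0 _ σ hz').1⟩ : ZU Q U p (q + 2))
      = ⟨(c, K (c.1 0) q (sface q i σ)), (hK1 _ hc0 q _ ((range_sface q i σ).trans hz')).1⟩ := by
    apply Subtype.ext
    apply Prod.ext
    · rfl
    · exact hK2 _ hc0 q σ hz' i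
  rw [e1]
  simp only [fu2, Fin.val_succ, pow_succ]
  ring

/-- rows are exact when there are least members -/
theorem row_exact (hU : Monotone U)
    (hcap : ∀ (q : ℕ) (σ : Sing X q), (∃ C ∈ Q, Set.range σ ⊆ U C) →
      ∃ J ∈ Q, Set.range σ ⊆ U J ∧ ∀ C ∈ Q, Set.range σ ⊆ U C → J ≤ C)
    (p q : ℕ) (f : ZU Q U (p + 1) q → k) (hf : du1 Q k hU q (p + 1) f = 0) :
    ∃ g : ZU Q U p q → k, du1 Q k hU q p g = f := by
  classical
  rcases isEmpty_or_nonempty P with hP | hP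
  · exact ⟨fun _ => 0, funext fun z => (hP.false (z.1.1.1 0)).elim⟩
  have hJ' : ∀ (σ : Sing X q), ∃ J : P, (∃ C ∈ Q, Set.range σ ⊆ U C) →
      (J ∈ Q ∧ Set.range σ ⊆ U J ∧ ∀ C ∈ Q, Set.range σ ⊆ U C → J ≤ C) := by
    intro σ
    by_cases h : ∃ C ∈ Q, Set.range σ ⊆ U C
    · obtain ⟨J, h1, h2, h3⟩ := hcap q σ h
      exact ⟨J, fun _ => ⟨h1, h2, h3⟩⟩
    · exact ⟨Classical.arbitrary P, fun h' => absurd h' h⟩
  choose J hJ using hJ'
  let g : ZU Q U p q → k := fun z =>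
    if h : J z.1.2 ∈ Q ∧ Set.range z.1.2 ⊆ U (J z.1.2) ∧ J z.1.2 < z.1.1.1 0 then
    f ⟨(z.1.1.consC (J z.1.2) h.1 h.2.2, z.1.2), h.2.1⟩ else 0
  have gpos : ∀ (z : ZU Q U p q) (h : J z.1.2 ∈ Q ∧ Set.range z.1.2 ⊆ U (J z.1.2) ∧
      J z.1.2 < z.1.1.1 0), g z = f ⟨(z.1.1.consC (J z.1.2) h.1 h.2.2, z.1.2), h.2.1⟩ :=
    fun z h => dif_pos h
  have gneg : ∀ (z : ZU Q U p q) (h : ¬ (J z.1.2 < z.1.1.1 0)), g z = 0 :=
    fun z h => dif_neg (fun h' => h h'.2.2)
  refine ⟨g, ?_⟩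
  funext z
  obtain ⟨⟨c, σ⟩, hz⟩ := z
  have hz' : Set.range σ ⊆ U (c.1 0) := hz
  obtain ⟨hJ1, hJ2, hJ3⟩ := hJ σ ⟨_, c.2.2 0, hz'⟩
  have hle : J σ ≤ c.1 0 := hJ3 _ (c.2.2 0) hz'
  rw [altd_apply]
  rcases eq_or_lt_of_le hle with heq | hlt
  · rw [Fin.sum_univ_succ]
    have hlt1 : J σ < (cface p 0 c).1 0 := by
      rw [heq]
      simp only [cface, Function.comp_apply]
      exact c.2.1 (by simp [Fin.succAbove])
    have hs : ∀ i : Fin (p + 1), (cface p i.succ c).1 0 = c.1 0 := by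
      intro i
      simp [cface]
    have e : ∑ i : Fin (p + 1), (-1 : k) ^ ((i.succ : Fin (p + 2)) : ℕ) *
        g (fu1 Q hU q p i.succ ⟨(c, σ), hz⟩) = 0 := by
      apply Finset.sum_eq_zero
      intro i _
      rw [gneg, mul_zero]
      change ¬ (J σ < (cface p i.succ c).1 0)
      rw [hs i, heq]; exact lt_irrefl _
    rw [e, gpos (fu1 Q hU q p 0 ⟨(c, σ), hz⟩) ⟨hJ1, hJ2, hlt1⟩]
    simp only [Fin.val_zero, pow_zero, one_mul, add_zero]
    congr 1
    apply Subtype.ext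
    apply Prod.ext
    · apply Subtype.ext
      funext x
      refine Fin.cases ?_ (fun x => ?_) x
      · simp [Ch.consC, heq, fu1]
      · simp [Ch.consC, cface, fu1]
    · rfl
  · have hlti : ∀ i : Fin (p + 2), J σ < (cface p i c).1 0 := by
      intro i
      refine lt_of_lt_of_le hlt ?_
      exact c.2.1.monotone (Fin.zero_le _)
    have h2 := congrFun hf (⟨(c.consC (J σ) hJ1 hlt, σ), hJ2⟩ : ZU Q U (p + 2) q)
    rw [altd_apply, Fin.sum_univ_succ] at h2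
    simp only [Fin.val_zero, pow_zero, one_mul, Pi.zero_apply] at h2
    have e0 : fu1 Q hU q (p + 1) 0 (⟨(c.consC (J σ) hJ1 hlt, σ), hJ2⟩ : ZU Q U (p + 2) q)
        = ⟨(c, σ), hz⟩ := by
      apply Subtype.ext
      apply Prod.ext
      · exact consC_face_zero c _ hJ1 hlt
      · rfl
    rw [e0] at h2
    rw [eq_neg_of_add_eq_zero_left h2, ← Finset.sum_neg_distrib]
    refine Finset.sum_congr rfl fun i _ => ?_
    have e1 : fu1 Q hU q (p + 1) i.succ (⟨(c.consC (J σ) hJ1 hlt, σ), hJ2⟩ : ZU Q U (p + 2) q)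
        = ⟨((cface p i c).consC (J σ) hJ1 (hlti i), σ), hJ2⟩ := by
      apply Subtype.ext
      apply Prod.ext
      · exact consC_face_succ c _ hJ1 hlt i (hlti i)
      · rfl
    rw [e1, gpos (fu1 Q hU q p i ⟨(c, σ), hz⟩) ⟨hJ1, hJ2, hlti i⟩]
    simp only [fu1, Fin.val_succ, pow_succ]
    ring

/-- a function on the zeroth column killed by the horizontal differential only depends on the
simplex -/
theorem row_zero (hU : Monotone U)
    (hcap : ∀ (q : ℕ) (σ : Sing X q), (∃ C ∈ Q, Set.range σ ⊆ U C) →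
      ∃ J ∈ Q, Set.range σ ⊆ U J ∧ ∀ C ∈ Q, Set.range σ ⊆ U C → J ≤ C)
    (q : ℕ) (f : ZU Q U 0 q → k) (hf : du1 Q k hU q 0 f = 0) (z z' : ZU Q U 0 q)
    (hzz : z.1.2 = z'.1.2) : f z = f z' := by
  classical
  have key1 : ∀ z : ZU Q U 0 q, ∀ J ∈ Q, ∀ (h' : Set.range z.1.2 ⊆ U J),
      (∀ C ∈ Q, Set.range z.1.2 ⊆ U C → J ≤ C) → ∀ (h : J ∈ Q),
      f z = f ⟨(⟨fun _ => J, fun a b hab => absurd hab (by
        have := Subsingleton.elim (α := Fin 1) a b; rw [this]; exact lt_irrefl _),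
        fun _ => h⟩, z.1.2), h'⟩ := by
    rintro ⟨⟨c, σ⟩, hz⟩ J _ h' hJ3 h
    have hz' : Set.range σ ⊆ U (c.1 0) := hz
    have hle : J ≤ c.1 0 := hJ3 _ (c.2.2 0) hz'
    rcases eq_or_lt_of_le hle with heq | hlt
    · congr 1
      apply Subtype.ext
      apply Prod.ext
      · apply Subtype.ext
        funext i
        have hi0 : i = 0 := Subsingleton.elim (α := Fin 1) i 0
        rw [hi0]
        exact heq.symm
      · rfl
    · have h2 := congrFun hf (⟨(c.consC J h hlt, σ), h'⟩ : ZU Q U 1 q)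
      rw [altd_apply, Fin.sum_univ_two] at h2
      simp only [Fin.val_zero, pow_zero, one_mul, Fin.val_one, pow_one, neg_mul,
        Pi.zero_apply] at h2
      have e0 : fu1 Q hU q 0 0 (⟨(c.consC J h hlt, σ), h'⟩ : ZU Q U 1 q)
          = ⟨(c, σ), hz⟩ := by
        apply Subtype.ext
        apply Prod.ext
        · exact consC_face_zero c _ h hlt
        · rfl
      rw [e0] at h2
      rw [← sub_eq_add_neg, sub_eq_zero] at h2
      rw [h2]
      congr 1
      apply Subtype.ext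
      apply Prod.ext
      · apply Subtype.ext
        funext i
        have hi0 : i = 0 := Subsingleton.elim (α := Fin 1) i 0
        rw [hi0]
        simp [fu1, cface, Ch.consC]
      · rfl
  obtain ⟨⟨c, σ⟩, hz⟩ := z
  obtain ⟨⟨c', σ'⟩, hz'⟩ := z'
  simp only at hzz
  subst hzz
  obtain ⟨J, hJ1, hJ2, hJ3⟩ := hcap q σ ⟨_, c.2.2 0, hz⟩
  rw [key1 ⟨(c, σ), hz⟩ J hJ1 hJ2 hJ3 hJ1, key1 ⟨(c', σ), hz'⟩ J hJ1 hJ2 hJ3 hJ1]

end Grid

section Zigzag

variable {k : Type v} [CommRing k] {X : Type u} [TopologicalSpace X] {P : Type w} [PartialOrder P]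
  (Q : Set P) {V W : P → Set X}

/-- restriction to the smaller family -/
def resZ (hVW : ∀ s, V s ⊆ W s) (p q : ℕ) (f : ZU Q W p q → k) : ZU Q V p q → k :=
  fun z => f ⟨z.1, z.2.trans (hVW _)⟩

theorem zigzag (hV : Monotone V) (hW : Monotone W) (hVW : ∀ s, V s ⊆ W s)
    (hcone : ∀ C ∈ Q, ConeData (W C))
    (hcap : ∀ (q : ℕ) (σ : Sing X q), (∃ C ∈ Q, Set.range σ ⊆ V C) →
      ∃ J ∈ Q, Set.range σ ⊆ V J ∧ ∀ C ∈ Q, Set.range σ ⊆ V C → J ≤ C)
    (d : ℕ) (hd : ∀ p, d < p → IsEmpty (Ch Q p)) :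
    ∀ (j p q : ℕ), d < p + j → d < p + q + 1 → ∀ h : ZU Q W p (q + 1) → k,
      du2 Q W k p (q + 1) h = 0 → du1 Q k hW (q + 1) p h = 0 →
      ∃ u : ZU Q V p q → k, du2 Q V k p q u = resZ Q hVW p (q + 1) h ∧
        du1 Q k hV q p u = 0 := by
  intro j
  induction j with
  | zero =>
    intro p q hp _ h _ _
    have := hd p (by omega)
    exact ⟨fun _ => 0, funext fun z => isEmptyElim z.1.1, funext fun z => by
      have := hd (p + 1) (by omega)
      exact isEmptyElim z.1.1⟩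
  | succ j ih =>
    intro p q hp hpq h h2 h1
    obtain ⟨g, hg⟩ := col_exact Q hcone p q h h2
    have hres1 : ∀ f : ZU Q W p q → k, du1 Q k hV q p (resZ Q hVW p q f) =
        resZ Q hVW (p + 1) q (du1 Q k hW q p f) := fun f => rfl
    have hres2 : ∀ f : ZU Q W p q → k, du2 Q V k p q (resZ Q hVW p q f) =
        resZ Q hVW p (q + 1) (du2 Q W k p q f) := fun f => rfl
    cases q with
    | zero =>
      refine ⟨resZ Q hVW p 0 g, ?_, ?_⟩
      · rw [hres2, hg]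
      · funext z
        have := hd (p + 1) (by omega)
        exact isEmptyElim z.1.1
    | succ q =>
      obtain ⟨u', hu2, hu1⟩ := ih (p + 1) q (by omega) (by omega) (du1 Q k hW (q + 1) p g)
        (by rw [← du12, hg, h1]) (du11 Q hW (q + 1) p g)
      obtain ⟨w, hw⟩ := row_exact Q hV hcap p q u' hu1
      refine ⟨resZ Q hVW p (q + 1) g - du2 Q V k p q w, ?_, ?_⟩
      · rw [map_sub, hres2, hg]
        have : du2 Q V k p (q + 1) (du2 Q V k p q w) = 0 := by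
          apply altd_altd
          intro n i j z hij
          apply Subtype.ext
          apply Prod.ext
          · rfl
          · exact sface_sface _ _ _ _ hij
        rw [this, sub_zero]
      · rw [map_sub, hres1, du12, hw, hu2, sub_self]

/-- vanishing of cohomology above the length of the chains of `Q` -/
theorem vanish_of_cover (hV : Monotone V) (hW : Monotone W) (hVW : ∀ s, V s ⊆ W s)
    (hopen : ∀ C ∈ Q, IsOpen (V C)) (hcov : ∀ x : X, ∃ C ∈ Q, x ∈ V C)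
    (hcone : ∀ C ∈ Q, ConeData (W C))
    (hcap : ∀ (q : ℕ) (σ : Sing X q), (∃ C ∈ Q, Set.range σ ⊆ V C) →
      ∃ J ∈ Q, Set.range σ ⊆ V J ∧ ∀ C ∈ Q, Set.range σ ⊆ V C → J ≤ C)
    (d : ℕ) (hd : ∀ p, d < p → IsEmpty (Ch Q p)) (n : ℕ) (hn : d < n + 1)
    (f : Sing X (n + 1) → k) (hf : altd k (sface (X := X)) (n + 1) f = 0) :
    ∃ g : Sing X n → k, altd k (sface (X := X)) n g = f := by
  classical
  let h : ZU Q W 0 (n + 1) → k := fun z => f z.1.2
  have h1 : du1 Q k hW (n + 1) 0 h = 0 := by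
    funext z
    rw [altd_apply, Fin.sum_univ_two]
    simp [h, fu1]
  have h2 : du2 Q W k 0 (n + 1) h = 0 := by
    funext z
    exact congrFun hf z.1.2
  obtain ⟨u, hu2, hu1⟩ := zigzag Q hV hW hVW hcone hcap d hd (d + 1) 0 n (by omega) (by omega)
    h h2 h1
  let 𝒞 : Set (Set X) := V '' Q
  have hsm : ∀ (q : ℕ) (σ : Small 𝒞 q), ∃ C, C ∈ Q ∧ Set.range σ.1 ⊆ V C := by
    rintro q ⟨σ, _, ⟨C, hC, rfl⟩, hσ⟩
    exact ⟨C, hC, hσ⟩
  choose J hJ using hsm
  let one : ∀ C ∈ Q, Ch Q 0 := fun C hC => ⟨fun _ => C, fun a b hab => absurd hab (by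
        have := Subsingleton.elim (α := Fin 1) a b; rw [this]; exact lt_irrefl _), fun _ => hC⟩
  let hh : Small 𝒞 n → k := fun σ => u ⟨(one (J n σ) (hJ n σ).1, σ.1), (hJ n σ).2⟩
  apply cob_of_small 𝒞 (by rintro _ ⟨C, hC, rfl⟩; exact hopen C hC) (by
    intro x
    obtain ⟨C, hC, hx⟩ := hcov x
    exact ⟨V C, ⟨C, hC, rfl⟩, hx⟩) n f hf hh
  intro σ
  have h3 := congrFun hu2 ⟨(one (J (n + 1) σ) (hJ (n + 1) σ).1, σ.1), (hJ (n + 1) σ).2⟩
  have h4 : resZ Q hVW 0 (n + 1) h ⟨(one (J (n + 1) σ) (hJ (n + 1) σ).1, σ.1),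
    (hJ (n + 1) σ).2⟩ = f σ.1 := rfl
  rw [h4] at h3
  rw [← h3, altd_apply, altd_apply]
  refine Finset.sum_congr rfl fun i _ => ?_
  congr 1
  exact row_zero Q hV hcap n u hu1 _ _ rfl

end Zigzag

end Pool.Agent.Helper381
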